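import Pool.Agent.Work.MP_3892ce_gt.Six2
import Pool.Agent.Work.MP_3892ce_cube_h9.Box

/-! # The Archimedean prism: volume and total edge length -/

set_option autoImplicit false

namespace Pool.Agent.Work.MP_3892ce_gt

open MeasureTheory Set

lemma left_extreme_segment (x y : E3) : x ∈ (segment ℝ x y).extremePoints ℝ := by
  refine ⟨left_mem_segment ℝ x y, ?_⟩
  intro x1 h1 x2 h2 hx
  rw [segment_eq_image'] at h1 h2
  obtain ⟨t1, ⟨ht1, -⟩, rfl⟩ := h1
  obtain ⟨t2, ⟨ht2, -⟩, rfl⟩ := h2
  obtain ⟨α, β, hα, hβ, hab, h⟩ := hx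
  have hab' : α = 1 - β := by linarith
  have h0 : (α * t1 + β * t2) • (y - x) = 0 := by
    have : (α * t1 + β * t2) • (y - x)
        = (α • (x + t1 • (y - x)) + β • (x + t2 • (y - x))) - x := by
      rw [hab']
      module
    rw [this, h, sub_self]
  rcases smul_eq_zero.mp h0 with h3 | h3
  · have h4 : 0 ≤ α * t1 := by positivity
    have h5 : 0 ≤ β * t2 := by positivity
    have h6 : α * t1 = 0 := by linarith
    rcases mul_eq_zero.mp h6 with h7 | h7
    · linarith
    · show x + t1 • (y - x) = x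
      rw [h7, zero_smul, add_zero]
  · show x + t1 • (y - x) = x
    rw [h3, smul_zero, add_zero]

/-- the end points of an edge of a convex hull -/
lemma edge_ends {S : Set E3} {F : Set E3} {x y : E3} (hF : IsExposed ℝ (convexHull ℝ S) F)
    (hxy : F = segment ℝ x y) : x ∈ S ∧ y ∈ S := by
  have hE := hF.isExtreme
  have h1 : x ∈ F.extremePoints ℝ := by
    rw [hxy]
    exact left_extreme_segment x y
  have h2 : y ∈ F.extremePoints ℝ := by
    rw [hxy, segment_symm]
    exact left_extreme_segment y x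
  exact ⟨extremePoints_convexHull_subset (hE.extremePoints_subset_extremePoints h1),
    extremePoints_convexHull_subset (hE.extremePoints_subset_extremePoints h2)⟩

section

variable {a : Fin 3 → E3} {u : E3} {s : ℝ}

/-- the prism -/
def prS (a : Fin 3 → E3) (u : E3) : Set E3 :=
  convexHull ℝ (Set.range a ∪ Set.range (fun i => a i + u))

lemma mem_prS_a (i : Fin 3) : a i ∈ prS a u := subset_convexHull ℝ _ (Or.inl ⟨i, rfl⟩)

lemma mem_prS_b (i : Fin 3) : a i + u ∈ prS a u := subset_convexHull ℝ _ (Or.inr ⟨i, rfl⟩)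

/-- the nine edges -/
def edU (a : Fin 3 → E3) (u : E3) (k : Fin 3 × Fin 3) : E3 :=
  if k.2 = 1 then a k.1 + u else a k.1

/-- the nine edges -/
def edV (a : Fin 3 → E3) (u : E3) (k : Fin 3 × Fin 3) : E3 :=
  if k.2 = 0 then a (k.1 + 1) else if k.2 = 1 then a (k.1 + 1) + u else a k.1 + u

lemma fin3_cases {i j : Fin 3} (h : i ≠ j) : j = i + 1 ∨ i = j + 1 := by
  revert i j
  decide

lemma diag_no {i j : Fin 3} (hij : i ≠ j) (hs : 0 < s) (hd : ∀ i j, i ≠ j → dist (a i) (a j) = s)
    (hu : ‖u‖ = s) (ho : ∀ i j, inner ℝ (a i - a j) u = (0 : ℝ)) {F : Set E3}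
    (hF : IsExposed ℝ (prS a u) F) (hseg : F = segment ℝ (a i) (a j + u)) : False := by
  have hE := hF.isExtreme
  have hmid : (1 / 2 : ℝ) • a j + (1 / 2 : ℝ) • (a i + u) ∈ F := by
    rw [hseg]
    refine ⟨1 / 2, 1 / 2, by norm_num, by norm_num, by norm_num, ?_⟩
    module
  have h1 : a j ∈ F := hE.left_mem_of_mem_openSegment (mem_prS_a j) (mem_prS_b i) hmid
    ⟨1 / 2, 1 / 2, by norm_num, by norm_num, by norm_num, rfl⟩
  rw [hseg, segment_eq_image'] at h1
  obtain ⟨t, ht, h2⟩ := h1
  have h2' : a i + t • (a j + u - a i) = a j := h2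
  have h3 : (1 - t) • (a j - a i) = t • u := by
    have : (1 - t) • (a j - a i) = (a j - (a i + t • (a j + u - a i))) + t • u := by module
    rw [this, h2', sub_self, zero_add]
  have h4 : (inner ℝ ((1 - t) • (a j - a i)) u : ℝ) = 0 := by
    rw [real_inner_smul_left, ho, mul_zero]
  rw [h3, real_inner_smul_left, real_inner_self_eq_norm_sq, hu] at h4
  have h5 : t = 0 := by
    rcases mul_eq_zero.mp h4 with h | h
    · exact h
    · have : 0 < s ^ 2 := by positivity
      linarith
  rw [h5, zero_smul, sub_zero, one_smul] at h3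
  have h6 := hd i j hij
  have h7 : a j = a i := sub_eq_zero.mp h3
  rw [h7, dist_self] at h6
  linarith

lemma arch_edge (hs : 0 < s) (hd : ∀ i j, i ≠ j → dist (a i) (a j) = s)
    (hu : ‖u‖ = s) (ho : ∀ i j, inner ℝ (a i - a j) u = (0 : ℝ)) {F : Set E3}
    (hF : IsEdge (prS a u) F) : ∃ k, F = segment ℝ (edU a u k) (edV a u k) := by
  obtain ⟨hexp, x, y, hxy, hseg⟩ := hF
  obtain ⟨hx, hy⟩ := edge_ends hexp hseg
  have key0 : ∀ i j : Fin 3, i ≠ j → F = segment ℝ (a i) (a j) →
      ∃ k, F = segment ℝ (edU a u k) (edV a u k) := by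
    intro i j hij h
    rcases fin3_cases hij with h1 | h1
    · exact ⟨(i, 0), by rw [h, h1]; rfl⟩
    · exact ⟨(j, 0), by rw [h, h1, segment_symm]; rfl⟩
  have key1 : ∀ i j : Fin 3, i ≠ j → F = segment ℝ (a i + u) (a j + u) →
      ∃ k, F = segment ℝ (edU a u k) (edV a u k) := by
    intro i j hij h
    rcases fin3_cases hij with h1 | h1
    · exact ⟨(i, 1), by rw [h, h1]; rfl⟩
    · exact ⟨(j, 1), by rw [h, h1, segment_symm]; rfl⟩
  have key2 : ∀ i j : Fin 3, F = segment ℝ (a i) (a j + u) →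
      ∃ k, F = segment ℝ (edU a u k) (edV a u k) := by
    intro i j h
    by_cases hij : i = j
    · subst hij
      exact ⟨(i, 2), h⟩
    · exact (diag_no hij hs hd hu ho hexp h).elim
  rcases hx with ⟨i, rfl⟩ | ⟨i, rfl⟩
  · rcases hy with ⟨j, rfl⟩ | ⟨j, rfl⟩
    · exact key0 i j (fun h => hxy (by rw [h])) hseg
    · exact key2 i j hseg
  · rcases hy with ⟨j, rfl⟩ | ⟨j, rfl⟩
    · exact key2 j i (by rw [hseg, segment_symm])
    · exact key1 i j (fun h => hxy (by rw [h])) hseg

lemma zeta1_arch (hs : 0 < s) (hd : ∀ i j, i ≠ j → dist (a i) (a j) = s)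
    (hu : ‖u‖ = s) (ho : ∀ i j, inner ℝ (a i - a j) u = (0 : ℝ)) :
    zeta1 (prS a u) ≤ ENNReal.ofReal (9 * s) := by
  choose k hk using fun F : {F : Set E3 // IsEdge (prS a u) F} => arch_edge hs hd hu ho F.2
  have hinj : Function.Injective k := by
    intro F G h
    apply Subtype.ext
    rw [hk F, hk G, h]
  have hlen : ∀ k : Fin 3 × Fin 3, dist (edU a u k) (edV a u k) = s := by
    rintro ⟨i, j⟩
    have h1 : i ≠ i + 1 := by
      revert i
      decide
    fin_cases j
    · show dist (a i) (a (i + 1)) = s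
      exact hd _ _ h1
    · show dist (a i + u) (a (i + 1) + u) = s
      rw [dist_add_right]
      exact hd _ _ h1
    · show dist (a i) (a i + u) = s
      rw [dist_self_add_right]
      exact hu
  have hdm : ∀ F : {F : Set E3 // IsEdge (prS a u) F}, Metric.ediam F.1 = ENNReal.ofReal s := by
    intro F
    rw [hk F, ediam_seg, edist_dist, hlen]
  unfold zeta1
  calc ∑' F : {F : Set E3 // IsEdge (prS a u) F}, Metric.ediam F.1
      = ∑' F : {F : Set E3 // IsEdge (prS a u) F}, (fun _ : Fin 3 × Fin 3 => ENNReal.ofReal s) (k F) :=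
        tsum_congr hdm
    _ ≤ ∑' _ : Fin 3 × Fin 3, ENNReal.ofReal s :=
        ENNReal.tsum_comp_le_tsum_of_injective hinj _
    _ = ENNReal.ofReal (9 * s) := by
        rw [tsum_fintype, Finset.sum_const, Finset.card_univ, nsmul_eq_mul,
          ENNReal.ofReal_mul (by norm_num)]
        congr 1
        norm_num [Fintype.card_prod]

lemma mem_prS {x y z : ℝ} (hx : 0 ≤ x) (hy : 0 ≤ y) (hxy : x + y ≤ 1) (hz : 0 ≤ z) (hz1 : z ≤ 1) :
    a 0 + (x • (a 1 - a 0) + y • (a 2 - a 0) + z • u) ∈ prS a u := by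
  have hc : Convex ℝ (prS a u) := convex_convexHull ℝ _
  have h1 : a 0 + (x • (a 1 - a 0) + y • (a 2 - a 0)) ∈ prS a u := by
    have := hc.sum_mem (t := Finset.univ) (w := ![1 - x - y, x, y]) (z := ![a 0, a 1, a 2]) (by
      intro i _
      fin_cases i
      · show 0 ≤ 1 - x - y
        linarith
      · exact hx
      · exact hy) (by
      rw [Fin.sum_univ_three]
      show 1 - x - y + x + y = 1
      ring) (by
      intro i _
      fin_cases i
      · exact mem_prS_a 0
      · exact mem_prS_a 1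
      · exact mem_prS_a 2)
    rw [Fin.sum_univ_three] at this
    have e : a 0 + (x • (a 1 - a 0) + y • (a 2 - a 0)) = (1 - x - y) • a 0 + x • a 1 + y • a 2 := by
      module
    rw [e]
    exact this
  have h2 : a 0 + (x • (a 1 - a 0) + y • (a 2 - a 0)) + u ∈ prS a u := by
    have := hc.sum_mem (t := Finset.univ) (w := ![1 - x - y, x, y])
      (z := ![a 0 + u, a 1 + u, a 2 + u]) (by
      intro i _
      fin_cases i
      · show 0 ≤ 1 - x - y
        linarith
      · exact hx
      · exact hy) (by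
      rw [Fin.sum_univ_three]
      show 1 - x - y + x + y = 1
      ring) (by
      intro i _
      fin_cases i
      · exact mem_prS_b 0
      · exact mem_prS_b 1
      · exact mem_prS_b 2)
    rw [Fin.sum_univ_three] at this
    have e : a 0 + (x • (a 1 - a 0) + y • (a 2 - a 0)) + u
        = (1 - x - y) • (a 0 + u) + x • (a 1 + u) + y • (a 2 + u) := by
      module
    rw [e]
    exact this
  have h3 := hc h1 h2 (a := 1 - z) (b := z) (by linarith) hz (by ring)
  have e : a 0 + (x • (a 1 - a 0) + y • (a 2 - a 0) + z • u)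
      = (1 - z) • (a 0 + (x • (a 1 - a 0) + y • (a 2 - a 0)))
        + z • (a 0 + (x • (a 1 - a 0) + y • (a 2 - a 0)) + u) := by
    module
  rw [e]
  exact h3

/-- the parallelepiped is covered by the prism and its reflection -/
lemma volume_para_le : ENNReal.ofReal |det3 (a 1 - a 0) (a 2 - a 0) u| ≤ 2 * volume (prS a u) := by
  set T := triE (a 1 - a 0) (a 2 - a 0) u with hT
  set Q := (fun x => a 0 + x) '' (T '' {t : E3 | ∀ i, 0 ≤ t i ∧ t i ≤ 1}) with hQ
  have hvQ : volume Q = ENNReal.ofReal |det3 (a 1 - a 0) (a 2 - a 0) u| := by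
    rw [hQ, image_add_left, measure_preimage_add, Measure.addHaar_image_linearMap, hT, det_triE,
      Pool.Agent.Work.MP_3892ce_cube_h9.volume_unit, mul_one]
  have hsub : Q ⊆ prS a u ∪ (fun x => (a 1 + a 2 + u) - x) '' prS a u := by
    rintro _ ⟨_, ⟨t, ht, rfl⟩, rfl⟩
    show a 0 + T t ∈ _
    rw [hT, triE_apply]
    by_cases h : t 0 + t 1 ≤ 1
    · left
      exact mem_prS (ht 0).1 (ht 1).1 h (ht 2).1 (ht 2).2
    · right
      push Not at h
      refine ⟨_, mem_prS (x := 1 - t 0) (y := 1 - t 1) (z := 1 - t 2) (by linarith [(ht 0).2])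
        (by linarith [(ht 1).2]) (by linarith) (by linarith [(ht 2).2]) (by linarith [(ht 2).1]), ?_⟩
      show a 1 + a 2 + u - (a 0 + ((1 - t 0) • (a 1 - a 0) + (1 - t 1) • (a 2 - a 0)
        + (1 - t 2) • u)) = _
      module
  have hrefl : volume ((fun x => (a 1 + a 2 + u) - x) '' prS a u) = volume (prS a u) := by
    have h1 : (fun x => (a 1 + a 2 + u) - x) '' prS a u
        = (fun x => (a 1 + a 2 + u) - x) ⁻¹' prS a u := by
      ext x
      constructor
      · rintro ⟨y, hy, rfl⟩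
        show a 1 + a 2 + u - (a 1 + a 2 + u - y) ∈ prS a u
        rw [sub_sub_cancel]
        exact hy
      · intro hx
        exact ⟨_, hx, sub_sub_cancel _ _⟩
    rw [h1]
    exact (Measure.measurePreserving_sub_left volume (a 1 + a 2 + u)).measure_preimage_emb
      (MeasurableEquiv.subLeft (a 1 + a 2 + u)).measurableEmbedding _
  rw [← hvQ]
  refine (measure_mono hsub).trans ((measure_union_le _ _).trans ?_)
  rw [hrefl, two_mul]

lemma det_arch (hd : ∀ i j, i ≠ j → dist (a i) (a j) = s)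
    (hu : ‖u‖ = s) (ho : ∀ i j, inner ℝ (a i - a j) u = (0 : ℝ)) :
    det3 (a 1 - a 0) (a 2 - a 0) u ^ 2 = 3 / 4 * s ^ 6 := by
  have h1 : ‖a 1 - a 0‖ = s := by
    rw [← dist_eq_norm]
    exact hd _ _ (by decide)
  have h2 : ‖a 2 - a 0‖ = s := by
    rw [← dist_eq_norm]
    exact hd _ _ (by decide)
  have h3 : ‖(a 1 - a 0) - (a 2 - a 0)‖ = s := by
    rw [sub_sub_sub_cancel_right, ← dist_eq_norm]
    exact hd _ _ (by decide)
  have h4 : (inner ℝ (a 1 - a 0) (a 2 - a 0) : ℝ) = s ^ 2 / 2 := by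
    have := norm_sub_sq_real (a 1 - a 0) (a 2 - a 0)
    rw [h1, h2, h3] at this
    linarith
  rw [det3_sq, h1, h2, hu, h4, ho, ho]
  ring

theorem arch_eq {P : Set E3} (h : IsArchPrism P) :
    zeta1 P ^ 3 ≤ ENNReal.ofReal (972 * √3) * volume P := by
  obtain ⟨a, u, s, hs, hd, hu, ho, rfl⟩ := h
  have h1 : zeta1 (prS a u) ≤ ENNReal.ofReal (9 * s) := zeta1_arch hs hd hu ho
  have h2 := volume_para_le (a := a) (u := u)
  have h3 := det_arch hd hu ho
  have h4 : |det3 (a 1 - a 0) (a 2 - a 0) u| = √3 / 2 * s ^ 3 := by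
    rw [← abs_of_nonneg (by positivity : 0 ≤ √3 / 2 * s ^ 3), ← sq_eq_sq_iff_abs_eq_abs, h3]
    have h5 : √3 ^ 2 = 3 := Real.sq_sqrt (by norm_num)
    have : (√3 / 2 * s ^ 3) ^ 2 = √3 ^ 2 / 4 * s ^ 6 := by ring
    rw [this, h5]
  rw [h4] at h2
  show zeta1 (prS a u) ^ 3 ≤ ENNReal.ofReal (972 * √3) * volume (prS a u)
  calc zeta1 (prS a u) ^ 3 ≤ ENNReal.ofReal (9 * s) ^ 3 := by gcongr
    _ = ENNReal.ofReal (486 * √3) * ENNReal.ofReal (√3 / 2 * s ^ 3) := by
        rw [← ENNReal.ofReal_pow (by positivity), ← ENNReal.ofReal_mul (by positivity)]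
        congr 1
        have h5 : √3 * √3 = 3 := Real.mul_self_sqrt (by norm_num)
        have : 486 * √3 * (√3 / 2 * s ^ 3) = 243 * (√3 * √3) * s ^ 3 := by ring
        rw [this, h5]
        ring
    _ ≤ ENNReal.ofReal (486 * √3) * (2 * volume (prS a u)) := by gcongr
    _ = ENNReal.ofReal (972 * √3) * volume (prS a u) := by
        rw [← mul_assoc]
        congr 1
        have : (2 : ENNReal) = ENNReal.ofReal 2 := by norm_num
        rw [this, ← ENNReal.ofReal_mul (by positivity)]
        congr 1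
        ring

end

end Pool.Agent.Work.MP_3892ce_gt
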