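import Pool.Agent.Work.MP_3892ce_gt.Red
import Pool.Agent.Work.MP_3892ce_gt.Arch

/-! # Melzak's inequality for polytopes with at most five facets -/

set_option autoImplicit false

namespace Pool.Agent.Work.MP_3892ce_gt

open MeasureTheory Set

lemma Cert.volume_le {P : Set E3} {A B : Fin 3 → E3} (h : Cert P A B) :
    volume P ≤ ENNReal.ofReal (|vol6 A B| / 6) := by
  refine (measure_mono h.cov).trans ?_
  refine (measure_union_le _ _).trans ?_
  refine (add_le_add (measure_union_le _ _) le_rfl).trans ?_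
  refine (add_le_add (add_le_add (volume_tetS_le _ _ _ _) (volume_tetS_le _ _ _ _))
    (volume_tetS_le _ _ _ _)).trans ?_
  rw [← ENNReal.ofReal_add (by positivity) (by positivity),
    ← ENNReal.ofReal_add (by positivity) (by positivity)]
  apply ENNReal.ofReal_le_ofReal
  have := h.sgn
  linarith

lemma Cert.Lnonneg (A B : Fin 3 → E3) : 0 ≤ Lsum A B := by
  unfold Lsum
  positivity

lemma Cert.hull {P : Set E3} {A B : Fin 3 → E3} (h : Cert P A B) :
    P = convexHull ℝ (Set.range A ∪ Set.range B) := by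
  apply Subset.antisymm
  · intro x hx
    have hc : Convex ℝ (convexHull ℝ (Set.range A ∪ Set.range B)) := convex_convexHull ℝ _
    have hA : ∀ i, A i ∈ convexHull ℝ (Set.range A ∪ Set.range B) :=
      fun i => subset_convexHull ℝ _ (Or.inl ⟨i, rfl⟩)
    have hB : ∀ i, B i ∈ convexHull ℝ (Set.range A ∪ Set.range B) :=
      fun i => subset_convexHull ℝ _ (Or.inr ⟨i, rfl⟩)
    rcases h.cov hx with (hx | hx) | hx
    · exact tetS_subset_of_convex hc (hA _) (hA _) (hA _) (hB _) hx
    · exact tetS_subset_of_convex hc (hA _) (hA _) (hB _) (hB _) hx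
    · exact tetS_subset_of_convex hc (hA _) (hB _) (hB _) (hB _) hx
  · apply convexHull_min _ h.cvx
    rintro _ (⟨i, rfl⟩ | ⟨i, rfl⟩)
    · exact h.mA i
    · exact h.mB i

theorem Cert.main {P : Set E3} {A B : Fin 3 → E3} (h : Cert P A B) (hpos : volume P ≠ 0) :
    ENNReal.ofReal (972 * √3) * volume P ≤ zeta1 P ^ 3 ∧
    (ENNReal.ofReal (972 * √3) * volume P = zeta1 P ^ 3 ↔ IsArchPrism P) := by
  obtain ⟨h6, h6e⟩ := six A B h.p01 h.p12 h.p02
  have hL := Cert.Lnonneg A B
  have c1 : ENNReal.ofReal (972 * √3) * volume P ≤ ENNReal.ofReal (162 * √3 * |vol6 A B|) := by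
    calc ENNReal.ofReal (972 * √3) * volume P
        ≤ ENNReal.ofReal (972 * √3) * ENNReal.ofReal (|vol6 A B| / 6) := by
          gcongr
          exact h.volume_le
      _ = ENNReal.ofReal (162 * √3 * |vol6 A B|) := by
          rw [← ENNReal.ofReal_mul (by positivity)]
          congr 1
          ring
  have c2 : ENNReal.ofReal (162 * √3 * |vol6 A B|) ≤ ENNReal.ofReal (Lsum A B ^ 3) :=
    ENNReal.ofReal_le_ofReal h6
  have c3 : ENNReal.ofReal (Lsum A B ^ 3) ≤ zeta1 P ^ 3 := by
    rw [ENNReal.ofReal_pow hL]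
    gcongr
    exact h.edg
  refine ⟨c1.trans (c2.trans c3), ?_, ?_⟩
  · intro he
    have e1 : ENNReal.ofReal (162 * √3 * |vol6 A B|) = ENNReal.ofReal (Lsum A B ^ 3) := by
      apply le_antisymm c2
      exact (c3.trans he.symm.le).trans c1
    have e2 : 162 * √3 * |vol6 A B| = Lsum A B ^ 3 :=
      (ENNReal.ofReal_eq_ofReal_iff (by positivity) (by positivity)).mp e1
    have e3 : 0 < |vol6 A B| := by
      by_contra hc
      have h0 : |vol6 A B| = 0 := le_antisymm (not_lt.mp hc) (abs_nonneg _)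
      have := h.volume_le
      rw [h0, zero_div, ENNReal.ofReal_zero] at this
      exact hpos (le_antisymm this zero_le)
    obtain ⟨u, s, hs, hB, hd, hu, ho⟩ := h6e e3 e2
    refine ⟨A, u, s, hs, hd, hu, ho, ?_⟩
    have hB' : B = fun i => A i + u := funext hB
    rw [← hB']
    exact h.hull
  · intro ha
    exact le_antisymm (c1.trans (c2.trans c3)) (arch_eq ha)

end Pool.Agent.Work.MP_3892ce_gt
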