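import Pool.Agent.Work.MP_3892ce_gt.Defs
import Pool.Agent.Work.MP_1bdd86_gt.Simplex

/-! # Volumes of tetrahedra -/

set_option autoImplicit false

namespace Pool.Agent.Work.MP_3892ce_gt

open MeasureTheory Set

/-- determinant of three vectors -/
def det3 (x y z : E3) : ℝ :=
  x 0 * (y 1 * z 2 - y 2 * z 1) - x 1 * (y 0 * z 2 - y 2 * z 0) + x 2 * (y 0 * z 1 - y 1 * z 0)

/-- the standard simplex with vertex `0` -/
def cornE : Set E3 := {t | (∀ i, 0 ≤ t i) ∧ ∑ i, t i ≤ 1}

lemma volume_cornE : volume cornE = ENNReal.ofReal (1 / 6) := by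
  have h := (EuclideanSpace.volume_preserving_symm_measurableEquiv_toLp (Fin 3))
  have h1 : cornE = (MeasurableEquiv.toLp 2 (Fin 3 → ℝ)).symm ⁻¹'
      (Pool.Agent.Work.MP_1bdd86_gt.cornerS 3 1) := by
    ext t
    simp only [cornE, mem_ofPred_eq, mem_preimage, Pool.Agent.Work.MP_1bdd86_gt.cornerS]
    rfl
  rw [h1, h.measure_preimage_equiv, Pool.Agent.Work.MP_1bdd86_gt.volume_cornerS 3 1 zero_le_one]
  norm_num [Nat.factorial]

/-- the linear map sending the standard basis to `u, v, w` -/
noncomputable def triE (u v w : E3) : E3 →ₗ[ℝ] E3 :=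
  Matrix.toLin (EuclideanSpace.basisFun (Fin 3) ℝ).toBasis (EuclideanSpace.basisFun (Fin 3) ℝ).toBasis
    (Matrix.of ![![u 0, v 0, w 0], ![u 1, v 1, w 1], ![u 2, v 2, w 2]])

lemma triE_apply (u v w t : E3) : triE u v w t = t 0 • u + t 1 • v + t 2 • w := by
  unfold triE
  ext i
  rw [Matrix.toLin_apply]
  simp only [OrthonormalBasis.coe_toBasis_repr_apply, OrthonormalBasis.coe_toBasis,
    EuclideanSpace.basisFun_repr, EuclideanSpace.basisFun_apply, Fin.sum_univ_three, Matrix.mulVec,
    dotProduct]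
  fin_cases i <;> simp <;> ring

lemma det_triE (u v w : E3) : LinearMap.det (triE u v w) = det3 u v w := by
  unfold triE
  rw [LinearMap.det_toLin, Matrix.det_fin_three]
  simp [det3]
  ring

/-- the tetrahedron with vertices `a, b, c, d` -/
def tetS (a b c d : E3) : Set E3 :=
  {z | ∃ r s t u : ℝ, 0 ≤ r ∧ 0 ≤ s ∧ 0 ≤ t ∧ 0 ≤ u ∧ r + s + t + u = 1 ∧
    z = r • a + s • b + t • c + u • d}

lemma tetS_subset (a b c d : E3) :
    tetS a b c d ⊆ (fun x => a + x) '' (triE (b - a) (c - a) (d - a) '' cornE) := by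
  rintro z ⟨r, s, t, u, hr, hs, ht, hu, h1, rfl⟩
  refine ⟨_, ⟨WithLp.toLp 2 ![s, t, u], ⟨?_, ?_⟩, rfl⟩, ?_⟩
  · intro i
    fin_cases i
    · exact hs
    · exact ht
    · exact hu
  · rw [Fin.sum_univ_three]
    show s + t + u ≤ 1
    linarith
  · show a + triE (b - a) (c - a) (d - a) (WithLp.toLp 2 ![s, t, u]) = _
    rw [triE_apply]
    show a + (s • (b - a) + t • (c - a) + u • (d - a)) = _
    have : r = 1 - s - t - u := by linarith
    rw [this]
    module

/-- the volume of a tetrahedron (upper bound) -/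
lemma volume_tetS_le (a b c d : E3) :
    volume (tetS a b c d) ≤ ENNReal.ofReal (|det3 (b - a) (c - a) (d - a)| / 6) := by
  refine (measure_mono (tetS_subset a b c d)).trans ?_
  rw [image_add_left, measure_preimage_add, Measure.addHaar_image_linearMap, det_triE,
    volume_cornE, ← ENNReal.ofReal_mul (abs_nonneg _)]
  apply le_of_eq
  congr 1
  ring

lemma convex_tetS (a b c d : E3) : Convex ℝ (tetS a b c d) := by
  rintro x ⟨r, s, t, u, hr, hs, ht, hu, h1, rfl⟩ y ⟨r', s', t', u', hr', hs', ht', hu', h1', rfl⟩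
    p q hp hq hpq
  refine ⟨p * r + q * r', p * s + q * s', p * t + q * t', p * u + q * u', by positivity,
    by positivity, by positivity, by positivity, ?_, ?_⟩
  · have : p * r + q * r' + (p * s + q * s') + (p * t + q * t') + (p * u + q * u')
        = p * (r + s + t + u) + q * (r' + s' + t' + u') := by ring
    rw [this, h1, h1']
    linarith
  · module

lemma convexHull_subset_tetS (a b c d : E3) : convexHull ℝ {a, b, c, d} ⊆ tetS a b c d := by
  refine convexHull_min ?_ (convex_tetS a b c d)
  intro z hz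
  simp only [mem_insert_iff, mem_singleton_iff] at hz
  rcases hz with rfl | rfl | rfl | rfl
  · exact ⟨1, 0, 0, 0, by norm_num, by norm_num, by norm_num, by norm_num, by norm_num, by module⟩
  · exact ⟨0, 1, 0, 0, by norm_num, by norm_num, by norm_num, by norm_num, by norm_num, by module⟩
  · exact ⟨0, 0, 1, 0, by norm_num, by norm_num, by norm_num, by norm_num, by norm_num, by module⟩
  · exact ⟨0, 0, 0, 1, by norm_num, by norm_num, by norm_num, by norm_num, by norm_num, by module⟩

/-- the volume of the convex hull of four points (upper bound) -/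
lemma volume_hull4_le (a b c d : E3) :
    volume (convexHull ℝ {a, b, c, d}) ≤ ENNReal.ofReal (|det3 (b - a) (c - a) (d - a)| / 6) :=
  (measure_mono (convexHull_subset_tetS a b c d)).trans (volume_tetS_le a b c d)

/-- a convex set which contains the vertices contains the tetrahedron -/
lemma tetS_subset_of_convex {P : Set E3} (hP : Convex ℝ P) {a b c d : E3} (ha : a ∈ P)
    (hb : b ∈ P) (hc : c ∈ P) (hd : d ∈ P) : tetS a b c d ⊆ P := by
  rintro z ⟨r, s, t, u, hr, hs, ht, hu, h1, rfl⟩
  have h := hP.sum_mem (t := Finset.univ) (w := ![r, s, t, u]) (z := ![a, b, c, d]) ?_ ?_ ?_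
  · simpa [Fin.sum_univ_four] using h
  · intro i _
    fin_cases i
    · exact hr
    · exact hs
    · exact ht
    · exact hu
  · simpa [Fin.sum_univ_four] using h1
  · intro i _
    fin_cases i
    · exact ha
    · exact hb
    · exact hc
    · exact hd

end Pool.Agent.Work.MP_3892ce_gt
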