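import Mathlib

/-! # Melzak's problem (MP_3892ce_gt): common definitions -/

set_option autoImplicit false

namespace Pool.Agent.Work.MP_3892ce_gt

open MeasureTheory Set

/-- three-dimensional Euclidean space -/
abbrev E3 := EuclideanSpace ℝ (Fin 3)

/-- An edge of `P`: an exposed face of `P` which is a nondegenerate segment. -/
def IsEdge (P F : Set E3) : Prop :=
  IsExposed ℝ P F ∧ ∃ x y : E3, x ≠ y ∧ F = segment ℝ x y

/-- The total edge length of `P`. -/
noncomputable def zeta1 (P : Set E3) : ENNReal :=
  ∑' F : {F : Set E3 // IsEdge P F}, Metric.ediam F.1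

/-- Archimedean 3-sided prisms: `P` is the convex hull of an equilateral triangle with side `s` and
of its translate by a vector of length `s` which is orthogonal to the plane of the triangle. -/
def IsArchPrism (P : Set E3) : Prop :=
  ∃ (a : Fin 3 → E3) (u : E3) (s : ℝ), 0 < s ∧ (∀ i j, i ≠ j → dist (a i) (a j) = s) ∧
    ‖u‖ = s ∧ (∀ i j, inner ℝ (a i - a j) u = 0) ∧
    P = convexHull ℝ (Set.range a ∪ Set.range (fun i => a i + u))

/-- Finitely many distinct edges: the sum of their lengths is at most `zeta1`. -/
lemma sum_le_zeta1 {ι : Type*} [Fintype ι] {P : Set E3} (F : ι → Set E3)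
    (hF : ∀ i, IsEdge P (F i)) (hinj : Function.Injective F) :
    ∑ i, Metric.ediam (F i) ≤ zeta1 P := by
  let g : ι → {F : Set E3 // IsEdge P F} := fun i => ⟨F i, hF i⟩
  have hg : Function.Injective g := fun i j h => hinj (congrArg Subtype.val h)
  have h1 := ENNReal.tsum_comp_le_tsum_of_injective hg
    (fun F : {F : Set E3 // IsEdge P F} => Metric.ediam F.1)
  calc ∑ i, Metric.ediam (F i) = ∑' i, Metric.ediam (F i) := (tsum_fintype _).symm
    _ ≤ zeta1 P := h1

/-- the length of a segment -/
lemma ediam_seg (x y : E3) : Metric.ediam (segment ℝ x y) = edist x y := by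
  rw [← convexHull_pair, convexHull_ediam, Metric.ediam_pair]

end Pool.Agent.Work.MP_3892ce_gt
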