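import Pool.Agent.Work.MP_3892ce_gt.Six2

/-! # Polyhedra given by inequalities: basic lemmas -/

set_option autoImplicit false

namespace Pool.Agent.Work.MP_3892ce_gt

open MeasureTheory Set

variable {m : ℕ}

/-- the polyhedron given by `m` inequalities -/
def HP (n : Fin m → E3) (b : Fin m → ℝ) : Set E3 := {x | ∀ i, inner ℝ (n i) x ≤ b i}

/-- the slack of the `i`-th inequality -/
noncomputable def sl (n : Fin m → E3) (b : Fin m → ℝ) (i : Fin m) (x : E3) : ℝ :=
  b i - inner ℝ (n i) x

lemma mem_HP {n : Fin m → E3} {b : Fin m → ℝ} {x : E3} : x ∈ HP n b ↔ ∀ i, 0 ≤ sl n b i x := by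
  constructor
  · intro h i
    have := h i
    unfold sl
    linarith
  · intro h i
    have := h i
    unfold sl at this
    linarith

lemma convex_HP (n : Fin m → E3) (b : Fin m → ℝ) : Convex ℝ (HP n b) := by
  intro x hx y hy p q hp hq hpq i
  rw [inner_add_right, inner_smul_right, inner_smul_right]
  have h1 := mul_le_mul_of_nonneg_left (hx i) hp
  have h2 := mul_le_mul_of_nonneg_left (hy i) hq
  have : p * b i + q * b i = b i := by rw [← add_mul, hpq, one_mul]
  linarith

/-- a strictly interior point, and no direction of recession -/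
structure Good (n : Fin m → E3) (b : Fin m → ℝ) (x0 : E3) : Prop where
  pos : ∀ i, 0 < sl n b i x0
  span : ∀ d : E3, d ≠ 0 → ∃ i, 0 < (inner ℝ (n i) d : ℝ)

/-- not all slacks are nonpositive at a point -/
lemma Good.exists_pos {n : Fin m → E3} {b : Fin m → ℝ} {x0 : E3} (h : Good n b x0) (hm : 0 < m)
    (x : E3) : ∃ i, 0 < sl n b i x := by
  by_contra hc
  push Not at hc
  have hd : x0 - x ≠ 0 := by
    intro h0
    have hx : x = x0 := (sub_eq_zero.mp h0).symm
    have h1 := hc ⟨0, hm⟩
    have h2 := h.pos ⟨0, hm⟩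
    rw [hx] at h1
    linarith
  obtain ⟨i, hi⟩ := h.span _ hd
  have h1 := hc i
  have h2 := h.pos i
  rw [inner_sub_right] at hi
  unfold sl at h1 h2
  linarith

lemma Good.inj {n : Fin m → E3} {b : Fin m → ℝ} {x0 : E3} (h : Good n b x0) (hm : 0 < m)
    {y : E3} {τ : ℝ} (hy : ∀ i, (inner ℝ (n i) y : ℝ) = b i * τ) : τ = 0 ∧ y = 0 := by
  by_cases hτ : τ = 0
  · refine ⟨hτ, ?_⟩
    by_contra hy0
    obtain ⟨i, hi⟩ := h.span y hy0
    rw [hy i, hτ, mul_zero] at hi
    exact lt_irrefl _ hi
  · exfalso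
    obtain ⟨i, hi⟩ := h.exists_pos hm (τ⁻¹ • y)
    unfold sl at hi
    rw [inner_smul_right, hy i] at hi
    have : τ⁻¹ * (b i * τ) = b i := by field_simp
    rw [this] at hi
    simp at hi

/-- affine combinations of four points are determined by the slacks -/
lemma Good.comb {n : Fin m → E3} {b : Fin m → ℝ} {x0 : E3} (h : Good n b x0) (hm : 0 < m)
    {x v1 v2 v3 v4 : E3} {c1 c2 c3 c4 : ℝ}
    (hs : ∀ i, c1 * sl n b i v1 + c2 * sl n b i v2 + c3 * sl n b i v3 + c4 * sl n b i v4
      = sl n b i x) :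
    c1 + c2 + c3 + c4 = 1 ∧ x = c1 • v1 + c2 • v2 + c3 • v3 + c4 • v4 := by
  have h1 : ∀ i, (inner ℝ (n i) (c1 • v1 + c2 • v2 + c3 • v3 + c4 • v4 - x) : ℝ)
      = b i * (c1 + c2 + c3 + c4 - 1) := by
    intro i
    have := hs i
    unfold sl at this
    rw [inner_sub_right, inner_add_right, inner_add_right, inner_add_right, inner_smul_right,
      inner_smul_right, inner_smul_right, inner_smul_right]
    linarith
  obtain ⟨h2, h3⟩ := h.inj hm h1
  exact ⟨by linarith, (sub_eq_zero.mp h3).symm⟩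

/-- three vectors without common orthogonal vector -/
def Ind (p q r : E3) : Prop :=
  ∀ d : E3, (inner ℝ p d : ℝ) = 0 → (inner ℝ q d : ℝ) = 0 → (inner ℝ r d : ℝ) = 0 → d = 0

lemma Ind.solve {p q r : E3} (h : Ind p q r) (a b c : ℝ) :
    ∃ x : E3, (inner ℝ p x : ℝ) = a ∧ (inner ℝ q x : ℝ) = b ∧ (inner ℝ r x : ℝ) = c := by
  let T : E3 →ₗ[ℝ] (Fin 3 → ℝ) :=
    { toFun := fun x => ![inner ℝ p x, inner ℝ q x, inner ℝ r x]
      map_add' := by
        intro x y
        simp only [inner_add_right]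
        ext i
        fin_cases i <;> rfl
      map_smul' := by
        intro c x
        simp only [inner_smul_right, RingHom.id_apply]
        ext i
        fin_cases i <;> rfl }
  have hinj : Function.Injective T := by
    rw [← LinearMap.ker_eq_bot, LinearMap.ker_eq_bot']
    intro d hd
    have h0 := congrFun hd 0
    have h1 := congrFun hd 1
    have h2 := congrFun hd 2
    exact h d h0 h1 h2
  have hsurj : Function.Surjective T := by
    apply (LinearMap.injective_iff_surjective_of_finrank_eq_finrank _).mp hinj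
    simp
  obtain ⟨x, hx⟩ := hsurj ![a, b, c]
  exact ⟨x, congrFun hx 0, congrFun hx 1, congrFun hx 2⟩

/-- the face where the inequalities `p, q` are equalities -/
def fc (n : Fin m → E3) (b : Fin m → ℝ) (p q : Fin m) : Set E3 :=
  {x | x ∈ HP n b ∧ sl n b p x = 0 ∧ sl n b q x = 0}

lemma exposed_fc {n : Fin m → E3} {b : Fin m → ℝ} {p q : Fin m} (hne : (fc n b p q).Nonempty) :
    IsExposed ℝ (HP n b) (fc n b p q) := by
  obtain ⟨u, hu, hup, huq⟩ := hne
  intro _
  refine ⟨innerSL ℝ (n p + n q), ?_⟩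
  ext x
  constructor
  · rintro ⟨hx, h1, h2⟩
    refine ⟨hx, fun y hy => ?_⟩
    have h3 := mem_HP.mp hy p
    have h4 := mem_HP.mp hy q
    simp only [innerSL_apply_apply, inner_add_left]
    unfold sl at h1 h2 h3 h4
    linarith
  · rintro ⟨hx, hmax⟩
    have h1 := hmax u hu
    have h3 := mem_HP.mp hx p
    have h4 := mem_HP.mp hx q
    simp only [innerSL_apply_apply, inner_add_left] at h1
    unfold sl at h3 h4 hup huq
    refine ⟨hx, ?_, ?_⟩
    · unfold sl
      linarith
    · unfold sl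
      linarith

lemma sl_comb (n : Fin m → E3) (b : Fin m → ℝ) (i : Fin m) (u v : E3) (t : ℝ) :
    sl n b i ((1 - t) • u + t • v) = (1 - t) * sl n b i u + t * sl n b i v := by
  unfold sl
  rw [inner_add_right, inner_smul_right, inner_smul_right]
  ring

/-- an edge -/
lemma fc_eq_segment {n : Fin m → E3} {b : Fin m → ℝ} {p q r r' : Fin m} {U V : E3}
    (hI : Ind (n p) (n q) (n r)) (hU : U ∈ HP n b) (hV : V ∈ HP n b)
    (Up : sl n b p U = 0) (Uq : sl n b q U = 0) (Vp : sl n b p V = 0) (Vq : sl n b q V = 0)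
    (Ur : 0 < sl n b r U) (Vr : sl n b r V = 0) (Ur' : sl n b r' U = 0) (Vr' : 0 < sl n b r' V) :
    fc n b p q = segment ℝ U V := by
  ext x
  constructor
  · rintro ⟨hx, h1, h2⟩
    set t := 1 - sl n b r x / sl n b r U with ht
    have hxe : x = (1 - t) • U + t • V := by
      have : x - ((1 - t) • U + t • V) = 0 := by
        have key : ∀ i, sl n b i x = sl n b i ((1 - t) • U + t • V) →
            (inner ℝ (n i) (x - ((1 - t) • U + t • V)) : ℝ) = 0 := by
          intro i hi
          unfold sl at hi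
          rw [inner_sub_right]
          linarith
        apply hI
        · apply key
          rw [sl_comb, h1, Up, Vp]
          ring
        · apply key
          rw [sl_comb, h2, Uq, Vq]
          ring
        · apply key
          rw [sl_comb, Vr, ht]
          field_simp
          ring
      exact sub_eq_zero.mp this
    have ht1 : 0 ≤ 1 - t := by
      rw [ht]
      have := mem_HP.mp hx r
      have : 0 ≤ sl n b r x / sl n b r U := by positivity
      linarith
    have ht0 : 0 ≤ t := by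
      have h3 := mem_HP.mp hx r'
      rw [hxe, sl_comb, Ur'] at h3
      have h4 : 0 ≤ t * sl n b r' V := by linarith
      exact nonneg_of_mul_nonneg_left h4 Vr'
    exact ⟨1 - t, t, ht1, ht0, by ring, hxe.symm⟩
  · rintro ⟨a, c, ha, hc, hac, rfl⟩
    have ha' : a = 1 - c := by linarith
    refine ⟨convex_HP n b hU hV ha hc hac, ?_, ?_⟩
    · rw [ha', sl_comb, Up, Vp]
      ring
    · rw [ha', sl_comb, Uq, Vq]
      ring

/-- certificate for the inequality -/
structure Cert (P : Set E3) (A B : Fin 3 → E3) : Prop where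
  cvx : Convex ℝ P
  mA : ∀ i, A i ∈ P
  mB : ∀ i, B i ∈ P
  cov : P ⊆ tetS (A 0) (A 1) (A 2) (B 2) ∪ tetS (A 0) (A 1) (B 1) (B 2)
    ∪ tetS (A 0) (B 0) (B 1) (B 2)
  sgn : |det3 (A 1 - A 0) (A 2 - A 0) (B 2 - A 0)| + |det3 (A 1 - A 0) (B 1 - A 0) (B 2 - A 0)|
    + |det3 (B 0 - A 0) (B 1 - A 0) (B 2 - A 0)| ≤ |vol6 A B|
  p01 : pla A B 0 1 = 0
  p12 : pla A B 1 2 = 0
  p02 : pla A B 0 2 = 0
  edg : ENNReal.ofReal (Lsum A B) ≤ zeta1 P

end Pool.Agent.Work.MP_3892ce_gt
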