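import Pool.Agent.Work.MP_3892ce_gt.Geo1

/-! # Edges, and the certificate for four inequalities -/

set_option autoImplicit false

namespace Pool.Agent.Work.MP_3892ce_gt

open MeasureTheory Set

variable {m : ℕ}

/-- the sum of the lengths of distinct edges -/
lemma edges_sum {n : Fin m → E3} {b : Fin m → ℝ} {k : ℕ} (pq : Fin k → Fin m × Fin m)
    (U V : Fin k → E3) (hUV : ∀ i, U i ≠ V i)
    (hseg : ∀ i, fc n b (pq i).1 (pq i).2 = segment ℝ (U i) (V i))
    (hsig : ∀ i l, l ≠ (pq i).1 → l ≠ (pq i).2 → sl n b l (U i) ≠ 0 ∨ sl n b l (V i) ≠ 0)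
    (hpq : ∀ i j, i ≠ j → ∃ l, (l = (pq j).1 ∨ l = (pq j).2) ∧ l ≠ (pq i).1 ∧ l ≠ (pq i).2) :
    ENNReal.ofReal (∑ i, dist (U i) (V i)) ≤ zeta1 (HP n b) := by
  have hE : ∀ i, IsEdge (HP n b) (fc n b (pq i).1 (pq i).2) := by
    intro i
    refine ⟨exposed_fc ?_, U i, V i, hUV i, hseg i⟩
    rw [hseg i]
    exact ⟨U i, left_mem_segment ℝ _ _⟩
  have hinj : Function.Injective (fun i => fc n b (pq i).1 (pq i).2) := by
    intro i j hij
    by_contra hne
    obtain ⟨l, hl, h1, h2⟩ := hpq i j hne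
    have hij' : fc n b (pq i).1 (pq i).2 = fc n b (pq j).1 (pq j).2 := hij
    have hU : U i ∈ fc n b (pq j).1 (pq j).2 := by
      rw [← hij', hseg i]
      exact left_mem_segment ℝ _ _
    have hV : V i ∈ fc n b (pq j).1 (pq j).2 := by
      rw [← hij', hseg i]
      exact right_mem_segment ℝ _ _
    rcases hsig i l h1 h2 with h | h
    · rcases hl with rfl | rfl
      · exact h hU.2.1
      · exact h hU.2.2
    · rcases hl with rfl | rfl
      · exact h hV.2.1
      · exact h hV.2.2
  have h := sum_le_zeta1 _ hE hinj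
  refine le_trans (le_of_eq ?_) h
  rw [ENNReal.ofReal_sum_of_nonneg (fun i _ => dist_nonneg)]
  apply Finset.sum_congr rfl
  intro i _
  rw [hseg i, ediam_seg, edist_dist]

lemma Good.ind4 {n : Fin 4 → E3} {b : Fin 4 → ℝ} {x0 : E3} (h : Good n b x0) {i j k l : Fin 4}
    (hc : ∀ r, r = i ∨ r = j ∨ r = k ∨ r = l) : Ind (n i) (n j) (n k) := by
  intro d hi hj hk
  by_contra hd
  have h1 : 0 < (inner ℝ (n l) d : ℝ) := by
    obtain ⟨r, hr⟩ := h.span d hd
    rcases hc r with rfl | rfl | rfl | rfl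
    · rw [hi] at hr
      exact absurd hr (lt_irrefl _)
    · rw [hj] at hr
      exact absurd hr (lt_irrefl _)
    · rw [hk] at hr
      exact absurd hr (lt_irrefl _)
    · exact hr
  have h2 : 0 < (inner ℝ (n l) (-d) : ℝ) := by
    obtain ⟨r, hr⟩ := h.span (-d) (neg_ne_zero.mpr hd)
    rcases hc r with rfl | rfl | rfl | rfl
    · rw [inner_neg_right, hi, neg_zero] at hr
      exact absurd hr (lt_irrefl _)
    · rw [inner_neg_right, hj, neg_zero] at hr
      exact absurd hr (lt_irrefl _)
    · rw [inner_neg_right, hk, neg_zero] at hr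
      exact absurd hr (lt_irrefl _)
    · exact hr
  rw [inner_neg_right] at h2
  linarith

lemma Good.vtx4 {n : Fin 4 → E3} {b : Fin 4 → ℝ} {x0 : E3} (h : Good n b x0) {i j k l : Fin 4}
    (hc : ∀ r, r = i ∨ r = j ∨ r = k ∨ r = l) :
    ∃ x, sl n b i x = 0 ∧ sl n b j x = 0 ∧ sl n b k x = 0 ∧ 0 < sl n b l x := by
  obtain ⟨x, h1, h2, h3⟩ := (h.ind4 hc).solve (b i) (b j) (b k)
  have e1 : sl n b i x = 0 := by
    unfold sl
    linarith
  have e2 : sl n b j x = 0 := by
    unfold sl
    linarith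
  have e3 : sl n b k x = 0 := by
    unfold sl
    linarith
  refine ⟨x, e1, e2, e3, ?_⟩
  obtain ⟨r, hr⟩ := h.exists_pos (by norm_num) x
  rcases hc r with rfl | rfl | rfl | rfl
  · rw [e1] at hr
    exact absurd hr (lt_irrefl _)
  · rw [e2] at hr
    exact absurd hr (lt_irrefl _)
  · rw [e3] at hr
    exact absurd hr (lt_irrefl _)
  · exact hr

/-- four inequalities: tetrahedra -/
theorem geo4 {n : Fin 4 → E3} {b : Fin 4 → ℝ} {x0 : E3} (h : Good n b x0) :
    ∃ A B : Fin 3 → E3, Cert (HP n b) A B := by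
  obtain ⟨v0, a01, a02, a03, a00⟩ := h.vtx4 (i := 1) (j := 2) (k := 3) (l := 0) (by decide)
  obtain ⟨v1, a10, a12, a13, a11⟩ := h.vtx4 (i := 0) (j := 2) (k := 3) (l := 1) (by decide)
  obtain ⟨v2, a20, a21, a23, a22⟩ := h.vtx4 (i := 0) (j := 1) (k := 3) (l := 2) (by decide)
  obtain ⟨v3, a30, a31, a32, a33⟩ := h.vtx4 (i := 0) (j := 1) (k := 2) (l := 3) (by decide)
  have m0 : v0 ∈ HP n b := by
    rw [mem_HP]
    intro i
    fin_cases i
    · exact a00.le
    · exact a01.ge
    · exact a02.ge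
    · exact a03.ge
  have m1 : v1 ∈ HP n b := by
    rw [mem_HP]
    intro i
    fin_cases i
    · exact a10.ge
    · exact a11.le
    · exact a12.ge
    · exact a13.ge
  have m2 : v2 ∈ HP n b := by
    rw [mem_HP]
    intro i
    fin_cases i
    · exact a20.ge
    · exact a21.ge
    · exact a22.le
    · exact a23.ge
  have m3 : v3 ∈ HP n b := by
    rw [mem_HP]
    intro i
    fin_cases i
    · exact a30.ge
    · exact a31.ge
    · exact a32.ge
    · exact a33.le
  refine ⟨![v3, v3, v3], ![v0, v1, v2], convex_HP n b, ?_, ?_, ?_, ?_, ?_, ?_, ?_, ?_⟩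
  · intro i
    fin_cases i <;> exact m3
  · intro i
    fin_cases i
    · exact m0
    · exact m1
    · exact m2
  · intro x hx
    rw [mem_HP] at hx
    right
    have hcomb := h.comb (by norm_num) (x := x) (v1 := v3) (v2 := v0) (v3 := v1) (v4 := v2)
      (c1 := sl n b 3 x / sl n b 3 v3) (c2 := sl n b 0 x / sl n b 0 v0)
      (c3 := sl n b 1 x / sl n b 1 v1) (c4 := sl n b 2 x / sl n b 2 v2) (by
        intro i
        fin_cases i
        · show _ * sl n b 0 v3 + _ * sl n b 0 v0 + _ * sl n b 0 v1 + _ * sl n b 0 v2 = sl n b 0 x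
          rw [a30, a10, a20]
          field_simp
          ring
        · show _ * sl n b 1 v3 + _ * sl n b 1 v0 + _ * sl n b 1 v1 + _ * sl n b 1 v2 = sl n b 1 x
          rw [a31, a01, a21]
          field_simp
          ring
        · show _ * sl n b 2 v3 + _ * sl n b 2 v0 + _ * sl n b 2 v1 + _ * sl n b 2 v2 = sl n b 2 x
          rw [a32, a02, a12]
          field_simp
          ring
        · show _ * sl n b 3 v3 + _ * sl n b 3 v0 + _ * sl n b 3 v1 + _ * sl n b 3 v2 = sl n b 3 x
          rw [a03, a13, a23]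
          field_simp
          ring)
    exact ⟨_, _, _, _, div_nonneg (hx 3) a33.le, div_nonneg (hx 0) a00.le,
      div_nonneg (hx 1) a11.le, div_nonneg (hx 2) a22.le, hcomb.1, hcomb.2⟩
  · show |det3 (v3 - v3) (v3 - v3) (v2 - v3)| + |det3 (v3 - v3) (v1 - v3) (v2 - v3)|
      + |det3 (v0 - v3) (v1 - v3) (v2 - v3)|
      ≤ |det3 (v3 - v3) (v3 - v3) (v2 - v3) - det3 (v3 - v3) (v1 - v3) (v2 - v3)
      + det3 (v0 - v3) (v1 - v3) (v2 - v3)|
    rw [sub_self, det3_zero, det3_zero]
    simp
  · show det3 (v3 - v3) _ _ = 0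
    rw [sub_self, det3_zero]
  · show det3 (v3 - v3) _ _ = 0
    rw [sub_self, det3_zero]
  · show det3 (v3 - v3) _ _ = 0
    rw [sub_self, det3_zero]
  · have hs := edges_sum (n := n) (b := b)
      ![((2 : Fin 4), (3 : Fin 4)), (1, 3), (0, 3), (1, 2), (0, 2), (0, 1)]
      ![v0, v0, v1, v3, v3, v3] ![v1, v2, v2, v0, v1, v2] ?_ ?_ ?_ (by decide)
    · refine le_trans (le_of_eq ?_) hs
      congr 1
      rw [Fin.sum_univ_six]
      show dist v3 v3 + dist v3 v3 + dist v3 v3 + (dist v0 v1 + dist v0 v2 + dist v1 v2)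
        + (dist v3 v0 + dist v3 v1 + dist v3 v2) = dist v0 v1 + dist v0 v2 + dist v1 v2
        + dist v3 v0 + dist v3 v1 + dist v3 v2
      rw [dist_self]
      ring
    · intro i
      fin_cases i
      · show v0 ≠ v1
        rintro rfl
        linarith
      · show v0 ≠ v2
        rintro rfl
        linarith
      · show v1 ≠ v2
        rintro rfl
        linarith
      · show v3 ≠ v0
        rintro rfl
        linarith
      · show v3 ≠ v1
        rintro rfl
        linarith
      · show v3 ≠ v2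
        rintro rfl
        linarith
    · intro i
      fin_cases i
      · exact fc_eq_segment (r := 0) (r' := 1) (h.ind4 (l := 1) (by decide)) m0 m1 a02 a03 a12 a13
          a00 a10 a01 a11
      · exact fc_eq_segment (r := 0) (r' := 2) (h.ind4 (l := 2) (by decide)) m0 m2 a01 a03 a21 a23
          a00 a20 a02 a22
      · exact fc_eq_segment (r := 1) (r' := 2) (h.ind4 (l := 2) (by decide)) m1 m2 a10 a13 a20 a23
          a11 a21 a12 a22
      · exact fc_eq_segment (r := 3) (r' := 0) (h.ind4 (l := 0) (by decide)) m3 m0 a31 a32 a01 a02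
          a33 a03 a30 a00
      · exact fc_eq_segment (r := 3) (r' := 1) (h.ind4 (l := 1) (by decide)) m3 m1 a30 a32 a10 a12
          a33 a13 a31 a11
      · exact fc_eq_segment (r := 3) (r' := 2) (h.ind4 (l := 2) (by decide)) m3 m2 a30 a31 a20 a21
          a33 a23 a32 a22
    · intro i l h1 h2
      fin_cases i <;> fin_cases l <;>
        first
        | exact absurd rfl h1
        | exact absurd rfl h2
        | exact Or.inl (ne_of_gt a00)
        | exact Or.inl (ne_of_gt a11)
        | exact Or.inl (ne_of_gt a22)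
        | exact Or.inl (ne_of_gt a33)
        | exact Or.inr (ne_of_gt a00)
        | exact Or.inr (ne_of_gt a11)
        | exact Or.inr (ne_of_gt a22)

end Pool.Agent.Work.MP_3892ce_gt
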