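import Pool.Agent.Work.MP_3892ce_gt.Geo4

/-! # The certificate for five inequalities in normal form -/

set_option autoImplicit false

namespace Pool.Agent.Work.MP_3892ce_gt

open MeasureTheory Set

/-- the relation between the five inequalities -/
def Rel (n : Fin 5 → E3) (b : Fin 5 → ℝ) (e : ℝ) : Prop :=
  n 3 + n 4 = n 0 + n 1 + e • n 2 ∧ b 3 + b 4 = b 0 + b 1 + e * b 2

section

variable {n : Fin 5 → E3} {b : Fin 5 → ℝ} {e : ℝ} {x0 : E3}

lemma Rel.inn (hR : Rel n b e) (d : E3) :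
    (inner ℝ (n 3) d : ℝ) + inner ℝ (n 4) d
      = inner ℝ (n 0) d + inner ℝ (n 1) d + e * inner ℝ (n 2) d := by
  have := congrArg (fun z : E3 => (inner ℝ z d : ℝ)) hR.1
  simp only [inner_add_left, real_inner_smul_left] at this
  exact this

lemma Rel.slk (hR : Rel n b e) (x : E3) :
    sl n b 3 x + sl n b 4 x = sl n b 0 x + sl n b 1 x + e * sl n b 2 x := by
  have h1 := hR.inn x
  have h2 := hR.2
  unfold sl
  linarith

/-- independence of three normals, general form -/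
lemma Good.ind5 (h : Good n b x0) {p q r s t : Fin 5} (hc : ∀ l, l = p ∨ l = q ∨ l = r ∨ l = s ∨ l = t)
    (a : ℝ) (ha : 0 ≤ a) (hst : ∀ d : E3, (inner ℝ (n p) d : ℝ) = 0 → (inner ℝ (n q) d : ℝ) = 0 →
      (inner ℝ (n r) d : ℝ) = 0 → (inner ℝ (n s) d : ℝ) = a * inner ℝ (n t) d) :
    Ind (n p) (n q) (n r) := by
  have key : ∀ d : E3, d ≠ 0 → (inner ℝ (n p) d : ℝ) = 0 → (inner ℝ (n q) d : ℝ) = 0 →
      (inner ℝ (n r) d : ℝ) = 0 → 0 < (inner ℝ (n t) d : ℝ) := by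
    intro d hd h1 h2 h3
    obtain ⟨l, hl⟩ := h.span d hd
    rcases hc l with rfl | rfl | rfl | rfl | rfl
    · rw [h1] at hl
      exact absurd hl (lt_irrefl _)
    · rw [h2] at hl
      exact absurd hl (lt_irrefl _)
    · rw [h3] at hl
      exact absurd hl (lt_irrefl _)
    · rw [hst d h1 h2 h3] at hl
      exact pos_of_mul_pos_right hl ha
    · exact hl
  intro d h1 h2 h3
  by_contra hd
  have k1 := key d hd h1 h2 h3
  have k2 := key (-d) (neg_ne_zero.mpr hd) (by rw [inner_neg_right, h1, neg_zero])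
    (by rw [inner_neg_right, h2, neg_zero]) (by rw [inner_neg_right, h3, neg_zero])
  rw [inner_neg_right] at k2
  linarith

/-- a vertex -/
lemma Good.vtx5 (h : Good n b x0) {p q r s t : Fin 5} (hc : ∀ l, l = p ∨ l = q ∨ l = r ∨ l = s ∨ l = t)
    (a : ℝ) (ha : 0 ≤ a) (hI : Ind (n p) (n q) (n r))
    (hsl : ∀ x : E3, sl n b p x = 0 → sl n b q x = 0 → sl n b r x = 0 →
      sl n b s x = a * sl n b t x) :
    ∃ x, sl n b p x = 0 ∧ sl n b q x = 0 ∧ sl n b r x = 0 ∧ sl n b s x = a * sl n b t x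
      ∧ 0 < sl n b t x := by
  obtain ⟨x, h1, h2, h3⟩ := hI.solve (b p) (b q) (b r)
  have e1 : sl n b p x = 0 := by
    unfold sl
    linarith
  have e2 : sl n b q x = 0 := by
    unfold sl
    linarith
  have e3 : sl n b r x = 0 := by
    unfold sl
    linarith
  have e4 := hsl x e1 e2 e3
  refine ⟨x, e1, e2, e3, e4, ?_⟩
  obtain ⟨l, hl⟩ := h.exists_pos (by norm_num) x
  rcases hc l with rfl | rfl | rfl | rfl | rfl
  · rw [e1] at hl
    exact absurd hl (lt_irrefl _)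
  · rw [e2] at hl
    exact absurd hl (lt_irrefl _)
  · rw [e3] at hl
    exact absurd hl (lt_irrefl _)
  · rw [e4] at hl
    exact pos_of_mul_pos_right hl ha
  · exact hl

lemma mem5 {x : E3} (h0 : 0 ≤ sl n b 0 x) (h1 : 0 ≤ sl n b 1 x) (h2 : 0 ≤ sl n b 2 x)
    (h3 : 0 ≤ sl n b 3 x) (h4 : 0 ≤ sl n b 4 x) : x ∈ HP n b := by
  rw [mem_HP]
  intro i
  fin_cases i
  · exact h0
  · exact h1
  · exact h2
  · exact h3
  · exact h4

/-- all data of a polytope with five inequalities -/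
structure Dat (n : Fin 5 → E3) (b : Fin 5 → ℝ) (e : ℝ) (x0 A0 A1 A2 B0 B1 B2 : E3)
    (α0 α1 α2 β0 β1 β2 : ℝ) : Prop where
  good : Good n b x0
  rel : Rel n b e
  he : 0 ≤ e
  i32 : Ind (n 3) (n 2) (n 1)
  i31 : Ind (n 3) (n 2) (n 0)
  i30 : Ind (n 3) (n 1) (n 0)
  i42 : Ind (n 4) (n 2) (n 1)
  i41 : Ind (n 4) (n 2) (n 0)
  i40 : Ind (n 4) (n 1) (n 0)
  p0 : 0 < α0
  p1 : 0 < α1
  p2 : 0 < α2
  q0 : 0 < β0
  q1 : 0 < β1
  q2 : 0 < β2
  a00 : sl n b 0 A0 = α0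
  a01 : sl n b 1 A0 = 0
  a02 : sl n b 2 A0 = 0
  a03 : sl n b 3 A0 = 0
  a04 : sl n b 4 A0 = α0
  a10 : sl n b 0 A1 = 0
  a11 : sl n b 1 A1 = α1
  a12 : sl n b 2 A1 = 0
  a13 : sl n b 3 A1 = 0
  a14 : sl n b 4 A1 = α1
  a20 : sl n b 0 A2 = 0
  a21 : sl n b 1 A2 = 0
  a22 : sl n b 2 A2 = α2
  a23 : sl n b 3 A2 = 0
  a24 : sl n b 4 A2 = e * α2
  b00 : sl n b 0 B0 = β0
  b01 : sl n b 1 B0 = 0
  b02 : sl n b 2 B0 = 0
  b03 : sl n b 3 B0 = β0
  b04 : sl n b 4 B0 = 0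
  b10 : sl n b 0 B1 = 0
  b11 : sl n b 1 B1 = β1
  b12 : sl n b 2 B1 = 0
  b13 : sl n b 3 B1 = β1
  b14 : sl n b 4 B1 = 0
  b20 : sl n b 0 B2 = 0
  b21 : sl n b 1 B2 = 0
  b22 : sl n b 2 B2 = β2
  b23 : sl n b 3 B2 = e * β2
  b24 : sl n b 4 B2 = 0

lemma exists_dat (h : Good n b x0) (hR : Rel n b e) (he : 0 ≤ e) :
    ∃ (A0 A1 A2 B0 B1 B2 : E3) (α0 α1 α2 β0 β1 β2 : ℝ),
      Dat n b e x0 A0 A1 A2 B0 B1 B2 α0 α1 α2 β0 β1 β2 := by
  have i32 : Ind (n 3) (n 2) (n 1) := h.ind5 (s := 4) (t := 0) (by decide) 1 zero_le_one (by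
    intro d h1 h2 h3
    have := hR.inn d
    rw [h1, h2, h3] at this
    linarith)
  have i31 : Ind (n 3) (n 2) (n 0) := h.ind5 (s := 4) (t := 1) (by decide) 1 zero_le_one (by
    intro d h1 h2 h3
    have := hR.inn d
    rw [h1, h2, h3] at this
    linarith)
  have i30 : Ind (n 3) (n 1) (n 0) := h.ind5 (s := 4) (t := 2) (by decide) e he (by
    intro d h1 h2 h3
    have := hR.inn d
    rw [h1, h2, h3] at this
    linarith)
  have i42 : Ind (n 4) (n 2) (n 1) := h.ind5 (s := 3) (t := 0) (by decide) 1 zero_le_one (by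
    intro d h1 h2 h3
    have := hR.inn d
    rw [h1, h2, h3] at this
    linarith)
  have i41 : Ind (n 4) (n 2) (n 0) := h.ind5 (s := 3) (t := 1) (by decide) 1 zero_le_one (by
    intro d h1 h2 h3
    have := hR.inn d
    rw [h1, h2, h3] at this
    linarith)
  have i40 : Ind (n 4) (n 1) (n 0) := h.ind5 (s := 3) (t := 2) (by decide) e he (by
    intro d h1 h2 h3
    have := hR.inn d
    rw [h1, h2, h3] at this
    linarith)
  obtain ⟨A0, a03, a02, a01, a04, p0⟩ := h.vtx5 (s := 4) (t := 0) (by decide) 1 zero_le_one i32 (by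
    intro d h1 h2 h3
    have := hR.slk d
    rw [h1, h2, h3] at this
    linarith)
  obtain ⟨A1, a13, a12, a10, a14, p1⟩ := h.vtx5 (s := 4) (t := 1) (by decide) 1 zero_le_one i31 (by
    intro d h1 h2 h3
    have := hR.slk d
    rw [h1, h2, h3] at this
    linarith)
  obtain ⟨A2, a23, a21, a20, a24, p2⟩ := h.vtx5 (s := 4) (t := 2) (by decide) e he i30 (by
    intro d h1 h2 h3
    have := hR.slk d
    rw [h1, h2, h3] at this
    linarith)
  obtain ⟨B0, b04, b02, b01, b03, q0⟩ := h.vtx5 (s := 3) (t := 0) (by decide) 1 zero_le_one i42 (by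
    intro d h1 h2 h3
    have := hR.slk d
    rw [h1, h2, h3] at this
    linarith)
  obtain ⟨B1, b14, b12, b10, b13, q1⟩ := h.vtx5 (s := 3) (t := 1) (by decide) 1 zero_le_one i41 (by
    intro d h1 h2 h3
    have := hR.slk d
    rw [h1, h2, h3] at this
    linarith)
  obtain ⟨B2, b24, b21, b20, b23, q2⟩ := h.vtx5 (s := 3) (t := 2) (by decide) e he i40 (by
    intro d h1 h2 h3
    have := hR.slk d
    rw [h1, h2, h3] at this
    linarith)
  rw [one_mul] at a04 a14 b03 b13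
  exact ⟨A0, A1, A2, B0, B1, B2, _, _, _, _, _, _, h, hR, he, i32, i31, i30, i42, i41, i40,
    p0, p1, p2, q0, q1, q2, rfl, a01, a02, a03, a04, a10, rfl, a12, a13, a14, a20, a21, rfl, a23,
    a24, rfl, b01, b02, b03, b04, b10, rfl, b12, b13, b14, b20, b21, rfl, b23, b24⟩

end

end Pool.Agent.Work.MP_3892ce_gt
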