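import Pool.Agent.Work.MP_3892ce_gt.Geo5

/-! # From the data to the certificate -/

set_option autoImplicit false

namespace Pool.Agent.Work.MP_3892ce_gt

open MeasureTheory Set

lemma det3_add_left (x x' y z : E3) : det3 (x + x') y z = det3 x y z + det3 x' y z := by
  unfold det3
  simp only [PiLp.add_apply]
  ring

lemma det3_comb1 (p q : ℝ) (y z : E3) : det3 (p • y + q • z) y z = 0 := by
  unfold det3
  simp only [PiLp.add_apply, PiLp.smul_apply, smul_eq_mul]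
  ring

lemma det3_comb2 (p q : ℝ) (x z : E3) : det3 x (p • x + q • z) z = 0 := by
  unfold det3
  simp only [PiLp.add_apply, PiLp.smul_apply, smul_eq_mul]
  ring

lemma det3_comb3 (p q r : ℝ) (x y z : E3) :
    det3 (p • x + q • y + r • z) y z = p * det3 x y z := by
  unfold det3
  simp only [PiLp.add_apply, PiLp.smul_apply, smul_eq_mul]
  ring

lemma det3_comb4 (p q r : ℝ) (x y z : E3) :
    det3 x (p • z + q • y + r • x) z = q * det3 x y z := by
  unfold det3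
  simp only [PiLp.add_apply, PiLp.smul_apply, smul_eq_mul]
  ring

variable {n : Fin 5 → E3} {b : Fin 5 → ℝ} {e : ℝ} {x0 A0 A1 A2 B0 B1 B2 : E3}
  {α0 α1 α2 β0 β1 β2 : ℝ}

lemma Dat.mA0 (D : Dat n b e x0 A0 A1 A2 B0 B1 B2 α0 α1 α2 β0 β1 β2) : A0 ∈ HP n b :=
  mem5 (D.a00 ▸ D.p0.le) D.a01.ge D.a02.ge D.a03.ge (D.a04 ▸ D.p0.le)

lemma Dat.mA1 (D : Dat n b e x0 A0 A1 A2 B0 B1 B2 α0 α1 α2 β0 β1 β2) : A1 ∈ HP n b :=
  mem5 D.a10.ge (D.a11 ▸ D.p1.le) D.a12.ge D.a13.ge (D.a14 ▸ D.p1.le)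

lemma Dat.mA2 (D : Dat n b e x0 A0 A1 A2 B0 B1 B2 α0 α1 α2 β0 β1 β2) : A2 ∈ HP n b :=
  mem5 D.a20.ge D.a21.ge (D.a22 ▸ D.p2.le) D.a23.ge (D.a24 ▸ mul_nonneg D.he D.p2.le)

lemma Dat.mB0 (D : Dat n b e x0 A0 A1 A2 B0 B1 B2 α0 α1 α2 β0 β1 β2) : B0 ∈ HP n b :=
  mem5 (D.b00 ▸ D.q0.le) D.b01.ge D.b02.ge (D.b03 ▸ D.q0.le) D.b04.ge

lemma Dat.mB1 (D : Dat n b e x0 A0 A1 A2 B0 B1 B2 α0 α1 α2 β0 β1 β2) : B1 ∈ HP n b :=
  mem5 D.b10.ge (D.b11 ▸ D.q1.le) D.b12.ge (D.b13 ▸ D.q1.le) D.b14.ge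

lemma Dat.mB2 (D : Dat n b e x0 A0 A1 A2 B0 B1 B2 α0 α1 α2 β0 β1 β2) : B2 ∈ HP n b :=
  mem5 D.b20.ge D.b21.ge (D.b22 ▸ D.q2.le) (D.b23 ▸ mul_nonneg D.he D.q2.le) D.b24.ge

/-- affine combinations of four points, from the five slacks -/
lemma Dat.comb5 (D : Dat n b e x0 A0 A1 A2 B0 B1 B2 α0 α1 α2 β0 β1 β2) {x v1 v2 v3 v4 : E3}
    {c1 c2 c3 c4 : ℝ}
    (h0 : c1 * sl n b 0 v1 + c2 * sl n b 0 v2 + c3 * sl n b 0 v3 + c4 * sl n b 0 v4 = sl n b 0 x)
    (h1 : c1 * sl n b 1 v1 + c2 * sl n b 1 v2 + c3 * sl n b 1 v3 + c4 * sl n b 1 v4 = sl n b 1 x)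
    (h2 : c1 * sl n b 2 v1 + c2 * sl n b 2 v2 + c3 * sl n b 2 v3 + c4 * sl n b 2 v4 = sl n b 2 x)
    (h3 : c1 * sl n b 3 v1 + c2 * sl n b 3 v2 + c3 * sl n b 3 v3 + c4 * sl n b 3 v4 = sl n b 3 x)
    (h4 : c1 * sl n b 4 v1 + c2 * sl n b 4 v2 + c3 * sl n b 4 v3 + c4 * sl n b 4 v4 = sl n b 4 x) :
    c1 + c2 + c3 + c4 = 1 ∧ x = c1 • v1 + c2 • v2 + c3 • v3 + c4 • v4 := by
  apply D.good.comb (by norm_num)
  intro i
  fin_cases i
  · exact h0
  · exact h1
  · exact h2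
  · exact h3
  · exact h4

/-- coverage -/
lemma Dat.cov (D : Dat n b e x0 A0 A1 A2 B0 B1 B2 α0 α1 α2 β0 β1 β2) :
    HP n b ⊆ tetS A0 A1 A2 B2 ∪ tetS A0 A1 B1 B2 ∪ tetS A0 B0 B1 B2 := by
  intro x hx
  rw [mem_HP] at hx
  have hr := D.rel.slk x
  have x0' := hx 0
  have x1' := hx 1
  have x2' := hx 2
  have x3' := hx 3
  have x4' := hx 4
  have p0 := D.p0
  have p1 := D.p1
  have p2 := D.p2
  have q0 := D.q0
  have q1 := D.q1
  have q2 := D.q2
  by_cases c1 : sl n b 4 x ≤ sl n b 0 x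
  · right
    have hc := D.comb5 (x := x) (v1 := A0) (v2 := B0) (v3 := B1) (v4 := B2)
      (c1 := sl n b 4 x / α0) (c2 := (sl n b 0 x - sl n b 4 x) / β0) (c3 := sl n b 1 x / β1)
      (c4 := sl n b 2 x / β2)
      (by
        rw [D.a00, D.b00, D.b10, D.b20]
        field_simp
        ring)
      (by
        rw [D.a01, D.b01, D.b11, D.b21]
        field_simp
        ring)
      (by
        rw [D.a02, D.b02, D.b12, D.b22]
        field_simp
        ring)
      (by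
        have h3 : sl n b 3 x = sl n b 0 x + sl n b 1 x + e * sl n b 2 x - sl n b 4 x := by linarith
        rw [D.a03, D.b03, D.b13, D.b23, h3]
        field_simp
        ring)
      (by
        rw [D.a04, D.b04, D.b14, D.b24]
        field_simp
        ring)
    exact ⟨_, _, _, _, div_nonneg x4' p0.le, div_nonneg (by linarith) q0.le,
      div_nonneg x1' q1.le, div_nonneg x2' q2.le, hc.1, hc.2⟩
  · left
    push Not at c1
    by_cases c2 : sl n b 4 x ≤ sl n b 0 x + sl n b 1 x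
    · right
      have hc := D.comb5 (x := x) (v1 := A0) (v2 := A1) (v3 := B1) (v4 := B2)
        (c1 := sl n b 0 x / α0) (c2 := (sl n b 4 x - sl n b 0 x) / α1)
        (c3 := (sl n b 0 x + sl n b 1 x - sl n b 4 x) / β1)
        (c4 := sl n b 2 x / β2)
        (by
          rw [D.a00, D.a10, D.b10, D.b20]
          field_simp
          ring)
        (by
          rw [D.a01, D.a11, D.b11, D.b21]
          field_simp
          ring)
        (by
          rw [D.a02, D.a12, D.b12, D.b22]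
          field_simp
          ring)
        (by
          have h3 : sl n b 3 x = sl n b 0 x + sl n b 1 x + e * sl n b 2 x - sl n b 4 x := by
            linarith
          rw [D.a03, D.a13, D.b13, D.b23, h3]
          field_simp
          ring)
        (by
          rw [D.a04, D.a14, D.b14, D.b24]
          field_simp
          ring)
      exact ⟨_, _, _, _, div_nonneg x0' p0.le, div_nonneg (by linarith) p1.le,
        div_nonneg (by linarith) q1.le, div_nonneg x2' q2.le, hc.1, hc.2⟩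
    · left
      push Not at c2
      have he : 0 < e := by
        have h1 : 0 < e * sl n b 2 x := by linarith
        exact pos_of_mul_pos_left h1 x2'
      have hc := D.comb5 (x := x) (v1 := A0) (v2 := A1) (v3 := A2) (v4 := B2)
        (c1 := sl n b 0 x / α0) (c2 := sl n b 1 x / α1)
        (c3 := (sl n b 4 x - sl n b 0 x - sl n b 1 x) / (e * α2))
        (c4 := sl n b 3 x / (e * β2))
        (by
          rw [D.a00, D.a10, D.a20, D.b20]
          field_simp
          ring)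
        (by
          rw [D.a01, D.a11, D.a21, D.b21]
          field_simp
          ring)
        (by
          have h3 : sl n b 3 x = sl n b 0 x + sl n b 1 x + e * sl n b 2 x - sl n b 4 x := by
            linarith
          rw [D.a02, D.a12, D.a22, D.b22, h3]
          field_simp
          ring)
        (by
          rw [D.a03, D.a13, D.a23, D.b23]
          field_simp
          ring)
        (by
          rw [D.a04, D.a14, D.a24, D.b24]
          field_simp
          ring)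
      exact ⟨_, _, _, _, div_nonneg x0' p0.le, div_nonneg x1' p1.le,
        div_nonneg (by linarith) (by positivity), div_nonneg x3' (by positivity), hc.1, hc.2⟩

/-- `B0` in terms of `A0, B1, A1` -/
lemma Dat.B0_eq (D : Dat n b e x0 A0 A1 A2 B0 B1 B2 α0 α1 α2 β0 β1 β2) :
    B0 - A0 = (β0 / β1) • (B1 - A0) + (-(β0 / α1)) • (A1 - A0) := by
  have p0 := D.p0
  have p1 := D.p1
  have q0 := D.q0
  have q1 := D.q1
  obtain ⟨h1, h2⟩ := D.comb5 (x := B0) (v1 := A0) (v2 := B1) (v3 := A1) (v4 := A1)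
    (c1 := β0 / α0) (c2 := β0 / β1) (c3 := -(β0 / α1)) (c4 := 0)
    (by
      rw [D.a00, D.b10, D.a10, D.b00]
      field_simp
      ring)
    (by
      rw [D.a01, D.b11, D.a11, D.b01]
      field_simp
      ring)
    (by
      rw [D.a02, D.b12, D.a12, D.b02]
      ring)
    (by
      rw [D.a03, D.b13, D.a13, D.b03]
      field_simp
      ring)
    (by
      rw [D.a04, D.b14, D.a14, D.b04]
      field_simp
      ring)
  have h3 : β0 / α0 = 1 - β0 / β1 + β0 / α1 := by linarith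
  rw [h2, h3]
  module

/-- `A2` in terms of `B2, B1, A1` -/
lemma Dat.A2_eq (D : Dat n b e x0 A0 A1 A2 B0 B1 B2 α0 α1 α2 β0 β1 β2) :
    A2 = (α2 / β2) • B2 + (-(e * α2 / β1)) • B1 + (e * α2 / α1) • A1 ∧
      α2 / β2 + (-(e * α2 / β1)) + e * α2 / α1 = 1 := by
  have p1 := D.p1
  have p2 := D.p2
  have q1 := D.q1
  have q2 := D.q2
  obtain ⟨h1, h2⟩ := D.comb5 (x := A2) (v1 := B2) (v2 := B1) (v3 := A1) (v4 := A1)
    (c1 := α2 / β2) (c2 := -(e * α2 / β1)) (c3 := e * α2 / α1) (c4 := 0)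
    (by
      rw [D.b20, D.b10, D.a10, D.a20]
      ring)
    (by
      rw [D.b21, D.b11, D.a11, D.a21]
      field_simp
      ring)
    (by
      rw [D.b22, D.b12, D.a12, D.a22]
      field_simp
      ring)
    (by
      rw [D.b23, D.b13, D.a13, D.a23]
      field_simp
      ring)
    (by
      rw [D.b24, D.b14, D.a14, D.a24]
      field_simp
      ring)
  refine ⟨?_, by linarith⟩
  rw [zero_smul, add_zero] at h2
  exact h2

/-- `A2` in terms of `B2, B0, A0` -/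
lemma Dat.A2_eq' (D : Dat n b e x0 A0 A1 A2 B0 B1 B2 α0 α1 α2 β0 β1 β2) :
    A2 = (α2 / β2) • B2 + (-(e * α2 / β0)) • B0 + (e * α2 / α0) • A0 ∧
      α2 / β2 + (-(e * α2 / β0)) + e * α2 / α0 = 1 := by
  have p0 := D.p0
  have p2 := D.p2
  have q0 := D.q0
  have q2 := D.q2
  obtain ⟨h1, h2⟩ := D.comb5 (x := A2) (v1 := B2) (v2 := B0) (v3 := A0) (v4 := A0)
    (c1 := α2 / β2) (c2 := -(e * α2 / β0)) (c3 := e * α2 / α0) (c4 := 0)
    (by
      rw [D.b20, D.b00, D.a00, D.a20]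
      field_simp
      ring)
    (by
      rw [D.b21, D.b01, D.a01, D.a21]
      ring)
    (by
      rw [D.b22, D.b02, D.a02, D.a22]
      field_simp
      ring)
    (by
      rw [D.b23, D.b03, D.a03, D.a23]
      field_simp
      ring)
    (by
      rw [D.b24, D.b04, D.a04, D.a24]
      field_simp
      ring)
  refine ⟨?_, by linarith⟩
  rw [zero_smul, add_zero] at h2
  exact h2

lemma Dat.planes (D : Dat n b e x0 A0 A1 A2 B0 B1 B2 α0 α1 α2 β0 β1 β2) :
    det3 (A1 - A0) (B0 - A0) (B1 - A0) = 0 ∧ det3 (A2 - A1) (B1 - A1) (B2 - A1) = 0 ∧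
      det3 (A2 - A0) (B0 - A0) (B2 - A0) = 0 := by
  refine ⟨?_, ?_, ?_⟩
  · rw [D.B0_eq, add_comm]
    exact det3_comb2 _ _ _ _
  · obtain ⟨h1, h2⟩ := D.A2_eq
    have h3 : A2 - A1 = (-(e * α2 / β1)) • (B1 - A1) + (α2 / β2) • (B2 - A1) := by
      have h4 : e * α2 / α1 = 1 - α2 / β2 - (-(e * α2 / β1)) := by linarith
      rw [h1, h4]
      module
    rw [h3]
    exact det3_comb1 _ _ _ _
  · obtain ⟨h1, h2⟩ := D.A2_eq'
    have h3 : A2 - A0 = (-(e * α2 / β0)) • (B0 - A0) + (α2 / β2) • (B2 - A0) := by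
      have h4 : e * α2 / α0 = 1 - α2 / β2 - (-(e * α2 / β0)) := by linarith
      rw [h1, h4]
      module
    rw [h3]
    exact det3_comb1 _ _ _ _

lemma Dat.signs (D : Dat n b e x0 A0 A1 A2 B0 B1 B2 α0 α1 α2 β0 β1 β2) :
    |det3 (A1 - A0) (A2 - A0) (B2 - A0)| + |det3 (A1 - A0) (B1 - A0) (B2 - A0)|
      + |det3 (B0 - A0) (B1 - A0) (B2 - A0)| ≤
    |det3 (A1 - A0) (A2 - A0) (B2 - A0) - det3 (A1 - A0) (B1 - A0) (B2 - A0)
      + det3 (B0 - A0) (B1 - A0) (B2 - A0)| := by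
  have he := D.he
  have p1 := D.p1
  have p2 := D.p2
  have q0 := D.q0
  have q1 := D.q1
  have h3 : det3 (B0 - A0) (B1 - A0) (B2 - A0)
      = -(β0 / α1) * det3 (A1 - A0) (B1 - A0) (B2 - A0) := by
    have e1 : B0 - A0 = (-(β0 / α1)) • (A1 - A0) + (β0 / β1) • (B1 - A0) + (0 : ℝ) • (B2 - A0) := by
      rw [D.B0_eq]
      module
    rw [e1, det3_comb3]
  have h1 : det3 (A1 - A0) (A2 - A0) (B2 - A0)
      = -(e * α2 / β1) * det3 (A1 - A0) (B1 - A0) (B2 - A0) := by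
    obtain ⟨h1, h2⟩ := D.A2_eq
    have e1 : A2 - A0 = (α2 / β2) • (B2 - A0) + (-(e * α2 / β1)) • (B1 - A0)
        + (e * α2 / α1) • (A1 - A0) := by
      have h4 : e * α2 / α1 = 1 - α2 / β2 - (-(e * α2 / β1)) := by linarith
      rw [h1, h4]
      module
    rw [e1, det3_comb4]
  rw [h1, h3]
  generalize det3 (A1 - A0) (B1 - A0) (B2 - A0) = d
  have hy : 0 ≤ e * α2 / β1 := by positivity
  have hz : 0 ≤ β0 / α1 := by positivity
  have e1 : -(e * α2 / β1) * d - d + -(β0 / α1) * d = -((e * α2 / β1 + 1 + β0 / α1) * d) := by ring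
  rw [e1, abs_neg, abs_mul, abs_mul, abs_mul, abs_neg, abs_neg, abs_of_nonneg hy, abs_of_nonneg hz,
    abs_of_nonneg (by positivity : 0 ≤ e * α2 / β1 + 1 + β0 / α1)]
  apply le_of_eq
  ring

end Pool.Agent.Work.MP_3892ce_gt
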