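import Pool.Agent.Work.MP_3892ce_gt.Geo5b

/-! # Edges in the case of five inequalities -/

set_option autoImplicit false

namespace Pool.Agent.Work.MP_3892ce_gt

open MeasureTheory Set

lemma Ind.rot {p q r : E3} (h : Ind p q r) : Ind q r p := fun d h1 h2 h3 => h d h3 h1 h2

lemma Ind.swap {p q r : E3} (h : Ind p q r) : Ind p r q := fun d h1 h2 h3 => h d h1 h3 h2

lemma ne_of_sl {m : ℕ} {n : Fin m → E3} {b : Fin m → ℝ} {i : Fin m} {x y : E3}
    (hx : 0 < sl n b i x) (hy : sl n b i y = 0) : x ≠ y := by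
  rintro rfl
  linarith

lemma ne_of_sl' {m : ℕ} {n : Fin m → E3} {b : Fin m → ℝ} {i : Fin m} {x y : E3}
    (hx : sl n b i x = 0) (hy : 0 < sl n b i y) : x ≠ y := by
  rintro rfl
  linarith

variable {n : Fin 5 → E3} {b : Fin 5 → ℝ} {e : ℝ} {x0 A0 A1 A2 B0 B1 B2 : E3}
  {α0 α1 α2 β0 β1 β2 : ℝ}

/-- nine edges when `e > 0` -/
lemma Dat.edg9 (D : Dat n b e x0 A0 A1 A2 B0 B1 B2 α0 α1 α2 β0 β1 β2) (he : 0 < e) :
    ENNReal.ofReal ((dist A0 A1 + dist A0 A2 + dist A1 A2)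
      + (dist B0 B1 + dist B0 B2 + dist B1 B2)
      + (dist A0 B0 + dist A1 B1 + dist A2 B2)) ≤ zeta1 (HP n b) := by
  have a00 : 0 < sl n b 0 A0 := D.a00 ▸ D.p0
  have a11 : 0 < sl n b 1 A1 := D.a11 ▸ D.p1
  have a22 : 0 < sl n b 2 A2 := D.a22 ▸ D.p2
  have b00 : 0 < sl n b 0 B0 := D.b00 ▸ D.q0
  have b11 : 0 < sl n b 1 B1 := D.b11 ▸ D.q1
  have b22 : 0 < sl n b 2 B2 := D.b22 ▸ D.q2
  have a04 : 0 < sl n b 4 A0 := D.a04 ▸ D.p0
  have a14 : 0 < sl n b 4 A1 := D.a14 ▸ D.p1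
  have a24 : 0 < sl n b 4 A2 := D.a24 ▸ mul_pos he D.p2
  have b03 : 0 < sl n b 3 B0 := D.b03 ▸ D.q0
  have b13 : 0 < sl n b 3 B1 := D.b13 ▸ D.q1
  have b23 : 0 < sl n b 3 B2 := D.b23 ▸ mul_pos he D.q2
  have hs := edges_sum (n := n) (b := b)
    ![((3 : Fin 5), (2 : Fin 5)), (3, 1), (3, 0), (4, 2), (4, 1), (4, 0), (1, 2), (0, 2), (0, 1)]
    ![A0, A0, A1, B0, B0, B1, B0, B1, B2] ![A1, A2, A2, B1, B2, B2, A0, A1, A2] ?_ ?_ ?_ (by decide)
  · refine le_trans (le_of_eq ?_) hs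
    congr 1
    rw [Fin.sum_univ_succ, Fin.sum_univ_eight]
    show dist A0 A1 + dist A0 A2 + dist A1 A2 + (dist B0 B1 + dist B0 B2 + dist B1 B2)
      + (dist A0 B0 + dist A1 B1 + dist A2 B2) = dist A0 A1 + (dist A0 A2 + dist A1 A2
      + dist B0 B1 + dist B0 B2 + dist B1 B2 + dist B0 A0 + dist B1 A1 + dist B2 A2)
    rw [dist_comm B0 A0, dist_comm B1 A1, dist_comm B2 A2]
    ring
  · intro i
    fin_cases i
    · exact ne_of_sl a00 D.a10
    · exact ne_of_sl a00 D.a20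
    · exact ne_of_sl a11 D.a21
    · exact ne_of_sl b00 D.b10
    · exact ne_of_sl b00 D.b20
    · exact ne_of_sl b11 D.b21
    · exact ne_of_sl b03 D.a03
    · exact ne_of_sl b13 D.a13
    · exact ne_of_sl b23 D.a23
  · intro i
    fin_cases i
    · exact fc_eq_segment (r := 0) (r' := 1) D.i31 D.mA0 D.mA1 D.a03 D.a02 D.a13 D.a12
        a00 D.a10 D.a01 a11
    · exact fc_eq_segment (r := 0) (r' := 2) D.i30 D.mA0 D.mA2 D.a03 D.a01 D.a23 D.a21
        a00 D.a20 D.a02 a22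
    · exact fc_eq_segment (r := 1) (r' := 2) D.i30.swap D.mA1 D.mA2 D.a13 D.a10 D.a23 D.a20
        a11 D.a21 D.a12 a22
    · exact fc_eq_segment (r := 0) (r' := 1) D.i41 D.mB0 D.mB1 D.b04 D.b02 D.b14 D.b12
        b00 D.b10 D.b01 b11
    · exact fc_eq_segment (r := 0) (r' := 2) D.i40 D.mB0 D.mB2 D.b04 D.b01 D.b24 D.b21
        b00 D.b20 D.b02 b22
    · exact fc_eq_segment (r := 1) (r' := 2) D.i40.swap D.mB1 D.mB2 D.b14 D.b10 D.b24 D.b20
        b11 D.b21 D.b12 b22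
    · exact fc_eq_segment (r := 3) (r' := 4) D.i32.swap.rot D.mB0 D.mA0 D.b01 D.b02 D.a01 D.a02
        b03 D.a03 D.b04 a04
    · exact fc_eq_segment (r := 3) (r' := 4) D.i31.swap.rot D.mB1 D.mA1 D.b10 D.b12 D.a10 D.a12
        b13 D.a13 D.b14 a14
    · exact fc_eq_segment (r := 3) (r' := 4) D.i30.swap.rot D.mB2 D.mA2 D.b20 D.b21 D.a20 D.a21
        b23 D.a23 D.b24 a24
  · intro i l h1 h2
    fin_cases i <;> fin_cases l <;>
      first
      | exact absurd rfl h1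
      | exact absurd rfl h2
      | exact Or.inl (ne_of_gt a00)
      | exact Or.inl (ne_of_gt a11)
      | exact Or.inl (ne_of_gt b00)
      | exact Or.inl (ne_of_gt b11)
      | exact Or.inl (ne_of_gt b22)
      | exact Or.inl (ne_of_gt a04)
      | exact Or.inl (ne_of_gt a14)
      | exact Or.inl (ne_of_gt b03)
      | exact Or.inl (ne_of_gt b13)
      | exact Or.inl (ne_of_gt b23)
      | exact Or.inr (ne_of_gt a00)
      | exact Or.inr (ne_of_gt a11)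
      | exact Or.inr (ne_of_gt a22)
      | exact Or.inr (ne_of_gt b11)
      | exact Or.inr (ne_of_gt b22)
      | exact Or.inr (ne_of_gt a04)
      | exact Or.inr (ne_of_gt a14)
      | exact Or.inr (ne_of_gt a24)

/-- eight edges when `e = 0` -/
lemma Dat.edg8 (D : Dat n b 0 x0 A0 A1 A2 B0 B1 B2 α0 α1 α2 β0 β1 β2) :
    ENNReal.ofReal ((dist A0 A1 + dist A0 A2 + dist A1 A2)
      + (dist B0 B1 + dist B0 B2 + dist B1 B2)
      + (dist A0 B0 + dist A1 B1 + dist A2 B2)) ≤ zeta1 (HP n b) := by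
  have a00 : 0 < sl n b 0 A0 := D.a00 ▸ D.p0
  have a11 : 0 < sl n b 1 A1 := D.a11 ▸ D.p1
  have a22 : 0 < sl n b 2 A2 := D.a22 ▸ D.p2
  have b00 : 0 < sl n b 0 B0 := D.b00 ▸ D.q0
  have b11 : 0 < sl n b 1 B1 := D.b11 ▸ D.q1
  have b22 : 0 < sl n b 2 B2 := D.b22 ▸ D.q2
  have a04 : 0 < sl n b 4 A0 := D.a04 ▸ D.p0
  have a14 : 0 < sl n b 4 A1 := D.a14 ▸ D.p1
  have b03 : 0 < sl n b 3 B0 := D.b03 ▸ D.q0
  have b13 : 0 < sl n b 3 B1 := D.b13 ▸ D.q1
  have hAB : A2 = B2 := by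
    obtain ⟨h1, h2⟩ := D.A2_eq
    simp only [zero_mul, zero_div, neg_zero, add_zero] at h2
    rw [h2] at h1
    rw [h1]
    simp
  have hs := edges_sum (n := n) (b := b)
    ![((3 : Fin 5), (2 : Fin 5)), (3, 1), (3, 0), (4, 2), (4, 1), (4, 0), (1, 2), (0, 2)]
    ![A0, A0, A1, B0, B0, B1, B0, B1] ![A1, A2, A2, B1, B2, B2, A0, A1] ?_ ?_ ?_ (by decide)
  · refine le_trans (le_of_eq ?_) hs
    congr 1
    rw [Fin.sum_univ_eight]
    show dist A0 A1 + dist A0 A2 + dist A1 A2 + (dist B0 B1 + dist B0 B2 + dist B1 B2)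
      + (dist A0 B0 + dist A1 B1 + dist A2 B2) = dist A0 A1 + dist A0 A2 + dist A1 A2
      + dist B0 B1 + dist B0 B2 + dist B1 B2 + dist B0 A0 + dist B1 A1
    rw [dist_comm B0 A0, dist_comm B1 A1, hAB, dist_self]
    ring
  · intro i
    fin_cases i
    · exact ne_of_sl a00 D.a10
    · exact ne_of_sl a00 D.a20
    · exact ne_of_sl a11 D.a21
    · exact ne_of_sl b00 D.b10
    · exact ne_of_sl b00 D.b20
    · exact ne_of_sl b11 D.b21
    · exact ne_of_sl b03 D.a03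
    · exact ne_of_sl b13 D.a13
  · intro i
    fin_cases i
    · exact fc_eq_segment (r := 0) (r' := 1) D.i31 D.mA0 D.mA1 D.a03 D.a02 D.a13 D.a12
        a00 D.a10 D.a01 a11
    · exact fc_eq_segment (r := 0) (r' := 2) D.i30 D.mA0 D.mA2 D.a03 D.a01 D.a23 D.a21
        a00 D.a20 D.a02 a22
    · exact fc_eq_segment (r := 1) (r' := 2) D.i30.swap D.mA1 D.mA2 D.a13 D.a10 D.a23 D.a20
        a11 D.a21 D.a12 a22
    · exact fc_eq_segment (r := 0) (r' := 1) D.i41 D.mB0 D.mB1 D.b04 D.b02 D.b14 D.b12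
        b00 D.b10 D.b01 b11
    · exact fc_eq_segment (r := 0) (r' := 2) D.i40 D.mB0 D.mB2 D.b04 D.b01 D.b24 D.b21
        b00 D.b20 D.b02 b22
    · exact fc_eq_segment (r := 1) (r' := 2) D.i40.swap D.mB1 D.mB2 D.b14 D.b10 D.b24 D.b20
        b11 D.b21 D.b12 b22
    · exact fc_eq_segment (r := 3) (r' := 4) D.i32.swap.rot D.mB0 D.mA0 D.b01 D.b02 D.a01 D.a02
        b03 D.a03 D.b04 a04
    · exact fc_eq_segment (r := 3) (r' := 4) D.i31.swap.rot D.mB1 D.mA1 D.b10 D.b12 D.a10 D.a12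
        b13 D.a13 D.b14 a14
  · intro i l h1 h2
    fin_cases i <;> fin_cases l <;>
      first
      | exact absurd rfl h1
      | exact absurd rfl h2
      | exact Or.inl (ne_of_gt a00)
      | exact Or.inl (ne_of_gt a11)
      | exact Or.inl (ne_of_gt b00)
      | exact Or.inl (ne_of_gt b11)
      | exact Or.inl (ne_of_gt a04)
      | exact Or.inl (ne_of_gt a14)
      | exact Or.inl (ne_of_gt b03)
      | exact Or.inl (ne_of_gt b13)
      | exact Or.inr (ne_of_gt a00)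
      | exact Or.inr (ne_of_gt a11)
      | exact Or.inr (ne_of_gt a22)
      | exact Or.inr (ne_of_gt b11)
      | exact Or.inr (ne_of_gt b22)
      | exact Or.inr (ne_of_gt a04)
      | exact Or.inr (ne_of_gt a14)

/-- five inequalities in normal form -/
theorem geo5 {n : Fin 5 → E3} {b : Fin 5 → ℝ} {e : ℝ} {x0 : E3} (h : Good n b x0) (hR : Rel n b e)
    (he : 0 ≤ e) : ∃ A B : Fin 3 → E3, Cert (HP n b) A B := by
  obtain ⟨A0, A1, A2, B0, B1, B2, α0, α1, α2, β0, β1, β2, D⟩ := exists_dat h hR he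
  refine ⟨![A0, A1, A2], ![B0, B1, B2], convex_HP n b, ?_, ?_, D.cov, D.signs, D.planes.1,
    D.planes.2.1, D.planes.2.2, ?_⟩
  · intro i
    fin_cases i
    · exact D.mA0
    · exact D.mA1
    · exact D.mA2
  · intro i
    fin_cases i
    · exact D.mB0
    · exact D.mB1
    · exact D.mB2
  · rcases he.eq_or_lt with h0 | h0
    · subst h0
      exact D.edg8
    · exact D.edg9 h0

end Pool.Agent.Work.MP_3892ce_gt
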