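import Pool.Agent.Work.MP_3892ce_gt.Geo5c

/-! # Reduction of five inequalities to the normal forms -/

set_option autoImplicit false

namespace Pool.Agent.Work.MP_3892ce_gt

open MeasureTheory Set

/-- rescaling and reindexing -/
lemma rescale {m k : ℕ} {n : Fin m → E3} {b : Fin m → ℝ} {x0 : E3} (h : Good n b x0)
    (w : Fin k → ℝ) (hw : ∀ i, 0 < w i) (σ : Fin k → Fin m) (hσ : Function.Surjective σ) :
    Good (fun i => w i • n (σ i)) (fun i => w i * b (σ i)) x0 ∧
      HP (fun i => w i • n (σ i)) (fun i => w i * b (σ i)) = HP n b := by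
  have hsl : ∀ i x, sl (fun i => w i • n (σ i)) (fun i => w i * b (σ i)) i x
      = w i * sl n b (σ i) x := by
    intro i x
    unfold sl
    rw [real_inner_smul_left]
    ring
  refine ⟨⟨?_, ?_⟩, ?_⟩
  · intro i
    rw [hsl]
    exact mul_pos (hw i) (h.pos _)
  · intro d hd
    obtain ⟨i, hi⟩ := h.span d hd
    obtain ⟨j, rfl⟩ := hσ i
    refine ⟨j, ?_⟩
    rw [real_inner_smul_left]
    exact mul_pos (hw j) hi
  · ext x
    rw [mem_HP, mem_HP]
    constructor
    · intro hx i
      obtain ⟨j, rfl⟩ := hσ i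
      have := hx j
      rw [hsl] at this
      exact nonneg_of_mul_nonneg_right this (hw j)
    · intro hx i
      rw [hsl]
      exact mul_nonneg (hw i).le (hx _)

/-- one redundant inequality -/
lemma redA {n : Fin 5 → E3} {b : Fin 5 → ℝ} {x0 : E3} (h : Good n b x0) (g : Fin 5 → ℝ)
    (hgn : ∑ i, g i • n i = 0) (hgb : ∑ i, g i * b i = 0) (p : Fin 5) (hp : 0 < g p)
    (hall : ∀ i, i ≠ p → g i ≤ 0) : ∃ A B : Fin 3 → E3, Cert (HP n b) A B := by
  have hin : ∀ d : E3, ∑ i, g i * (inner ℝ (n i) d : ℝ) = 0 := by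
    intro d
    have h1 : (inner ℝ (∑ i, g i • n i) d : ℝ) = 0 := by rw [hgn, inner_zero_left]
    rw [sum_inner] at h1
    rw [← h1]
    apply Finset.sum_congr rfl
    intro i _
    rw [real_inner_smul_left]
  have hs : ∀ x : E3, ∑ i, g i * sl n b i x = 0 := by
    intro x
    have h1 : ∑ i, g i * sl n b i x = ∑ i, g i * b i - ∑ i, g i * (inner ℝ (n i) x : ℝ) := by
      rw [← Finset.sum_sub_distrib]
      apply Finset.sum_congr rfl
      intro i _
      unfold sl
      ring
    rw [h1, hgb, hin]
    ring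
  have hHP : HP (fun i => n (p.succAbove i)) (fun i => b (p.succAbove i)) = HP n b := by
    ext x
    rw [mem_HP, mem_HP]
    constructor
    · intro hx i
      by_cases hi : i = p
      · subst hi
        have h1 := hs x
        rw [Fin.sum_univ_succAbove _ i] at h1
        have h2 : ∑ j, g (i.succAbove j) * sl n b (i.succAbove j) x ≤ 0 := by
          apply Finset.sum_nonpos
          intro j _
          exact mul_nonpos_of_nonpos_of_nonneg (hall _ (Fin.succAbove_ne i j)) (hx j)
        have h3 : 0 ≤ g i * sl n b i x := by linarith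
        exact nonneg_of_mul_nonneg_right h3 hp
      · obtain ⟨j, rfl⟩ := Fin.exists_succAbove_eq hi
        exact hx j
    · intro hx i
      exact hx _
  have hG : Good (fun i => n (p.succAbove i)) (fun i => b (p.succAbove i)) x0 := by
    refine ⟨fun i => h.pos _, ?_⟩
    intro d hd
    by_contra hc
    push Not at hc
    obtain ⟨i, hi⟩ := h.span d hd
    by_cases hip : i = p
    · subst hip
      have h1 := hin d
      rw [Fin.sum_univ_succAbove _ i] at h1
      have h2 : 0 ≤ ∑ j, g (i.succAbove j) * (inner ℝ (n (i.succAbove j)) d : ℝ) := by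
        apply Finset.sum_nonneg
        intro j _
        exact mul_nonneg_of_nonpos_of_nonpos (hall _ (Fin.succAbove_ne i j)) (hc j)
      have h3 : 0 < g i * (inner ℝ (n i) d : ℝ) := mul_pos hp hi
      linarith
    · obtain ⟨j, rfl⟩ := Fin.exists_succAbove_eq hip
      exact absurd hi (not_lt.mpr (hc j))
  obtain ⟨A, B, hC⟩ := geo4 hG
  exact ⟨A, B, hHP ▸ hC⟩

/-- two positive coefficients -/
lemma redB {n : Fin 5 → E3} {b : Fin 5 → ℝ} {x0 : E3} (h : Good n b x0) (g : Fin 5 → ℝ)
    (hgn : ∑ i, g i • n i = 0) (hgb : ∑ i, g i * b i = 0) {p q r s t : Fin 5}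
    (hc : ∀ l, l = p ∨ l = q ∨ l = r ∨ l = s ∨ l = t) (hp : 0 < g p) (hq : 0 < g q)
    (hr : g r < 0) (hs : g s < 0) (ht : g t ≤ 0) : ∃ A B : Fin 3 → E3, Cert (HP n b) A B := by
  have hσ : Function.Surjective (![r, s, t, p, q] : Fin 5 → Fin 5) := by
    intro l
    rcases hc l with rfl | rfl | rfl | rfl | rfl
    · exact ⟨3, rfl⟩
    · exact ⟨4, rfl⟩
    · exact ⟨0, rfl⟩
    · exact ⟨1, rfl⟩
    · exact ⟨2, rfl⟩
  have hb : Function.Bijective (![r, s, t, p, q] : Fin 5 → Fin 5) :=
    ⟨Finite.injective_iff_surjective.mpr hσ, hσ⟩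
  obtain ⟨hG, hHP⟩ := rescale h ![-g r, -g s, 1, g p, g q] (by
    intro i
    fin_cases i
    · show 0 < -g r
      linarith
    · show 0 < -g s
      linarith
    · show (0:ℝ) < 1
      norm_num
    · exact hp
    · exact hq) ![r, s, t, p, q] hσ
  have h1 : g r • n r + g s • n s + g t • n t + g p • n p + g q • n q = 0 := by
    have := (Equiv.ofBijective _ hb).sum_comp (fun i => g i • n i)
    rw [Fin.sum_univ_five, hgn] at this
    exact this
  have h2 : g r * b r + g s * b s + g t * b t + g p * b p + g q * b q = 0 := by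
    have := (Equiv.ofBijective _ hb).sum_comp (fun i => g i * b i)
    rw [Fin.sum_univ_five, hgb] at this
    exact this
  have hR : Rel (fun i => (![-g r, -g s, 1, g p, g q] : Fin 5 → ℝ) i • n ((![r, s, t, p, q] : Fin 5 → Fin 5) i))
      (fun i => (![-g r, -g s, 1, g p, g q] : Fin 5 → ℝ) i * b ((![r, s, t, p, q] : Fin 5 → Fin 5) i)) (-g t) := by
    constructor
    · show g p • n p + g q • n q = (-g r) • n r + (-g s) • n s + (-g t) • ((1 : ℝ) • n t)
      have h3 : g p • n p + g q • n q = -(g r • n r + g s • n s + g t • n t) := by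
        rw [eq_neg_iff_add_eq_zero, ← h1]
        abel
      rw [h3]
      module
    · show g p * b p + g q * b q = (-g r) * b r + (-g s) * b s + (-g t) * (1 * b t)
      linarith
  obtain ⟨A, B, hC⟩ := geo5 hG hR (by linarith)
  exact ⟨A, B, hHP ▸ hC⟩

/-- the reduction with a nontrivial relation -/
lemma redC {n : Fin 5 → E3} {b : Fin 5 → ℝ} {x0 : E3} (h : Good n b x0) (g : Fin 5 → ℝ)
    (hgn : ∑ i, g i • n i = 0) (hgb : ∑ i, g i * b i = 0) (hg : ∃ i, g i ≠ 0) :
    ∃ A B : Fin 3 → E3, Cert (HP n b) A B := by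
  have hgn' : ∑ i, (-g i) • n i = 0 := by
    have : ∑ i, (-g i) • n i = -∑ i, g i • n i := by
      rw [← Finset.sum_neg_distrib]
      apply Finset.sum_congr rfl
      intro i _
      rw [neg_smul]
    rw [this, hgn, neg_zero]
  have hgb' : ∑ i, (-g i) * b i = 0 := by
    have : ∑ i, (-g i) * b i = -∑ i, g i * b i := by
      rw [← Finset.sum_neg_distrib]
      apply Finset.sum_congr rfl
      intro i _
      ring
    rw [this, hgb, neg_zero]
  have hs : ∑ i, g i * sl n b i x0 = 0 := by
    have h1 : (inner ℝ (∑ i, g i • n i) x0 : ℝ) = 0 := by rw [hgn, inner_zero_left]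
    rw [sum_inner] at h1
    have h2 : ∑ i, g i * sl n b i x0 = ∑ i, g i * b i - ∑ i, (inner ℝ (g i • n i) x0 : ℝ) := by
      rw [← Finset.sum_sub_distrib]
      apply Finset.sum_congr rfl
      intro i _
      unfold sl
      rw [real_inner_smul_left]
      ring
    rw [h2, hgb, h1]
    ring
  have hpos : ∃ p, 0 < g p := by
    by_contra hc
    push Not at hc
    obtain ⟨i, hi⟩ := hg
    have h1 : ∑ i, g i * sl n b i x0 < 0 := by
      apply Finset.sum_neg' (fun j _ => mul_nonpos_of_nonpos_of_nonneg (hc j) (h.pos j).le)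
      exact ⟨i, Finset.mem_univ i, mul_neg_of_neg_of_pos (lt_of_le_of_ne (hc i) hi) (h.pos i)⟩
    linarith
  have hneg : ∃ r, g r < 0 := by
    by_contra hc
    push Not at hc
    obtain ⟨i, hi⟩ := hg
    have h1 : 0 < ∑ i, g i * sl n b i x0 := by
      apply Finset.sum_pos' (fun j _ => mul_nonneg (hc j) (h.pos j).le)
      exact ⟨i, Finset.mem_univ i, mul_pos (lt_of_le_of_ne (hc i) (Ne.symm hi)) (h.pos i)⟩
    linarith
  obtain ⟨p, hp⟩ := hpos
  obtain ⟨r, hr⟩ := hneg
  by_cases hA : ∀ i, i ≠ p → g i ≤ 0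
  · exact redA h g hgn hgb p hp hA
  by_cases hA' : ∀ i, i ≠ r → -g i ≤ 0
  · exact redA h (fun i => -g i) hgn' hgb' r (by linarith) hA'
  push Not at hA hA'
  obtain ⟨q, hqp, hq⟩ := hA
  obtain ⟨s, hsr, hs'⟩ := hA'
  have hs2 : g s < 0 := by linarith
  have hne : ∀ {i j : Fin 5}, 0 < g i → g j < 0 → i ≠ j := by
    rintro i j hi hj rfl
    linarith
  have hcard : (({p, q, r, s} : Finset (Fin 5))).card = 4 := by
    rw [Finset.card_insert_of_notMem, Finset.card_insert_of_notMem, Finset.card_insert_of_notMem,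
      Finset.card_singleton]
    · rw [Finset.mem_singleton]
      exact fun h => hsr h.symm
    · simp only [Finset.mem_insert, Finset.mem_singleton, not_or]
      exact ⟨hne hq hr, hne hq hs2⟩
    · simp only [Finset.mem_insert, Finset.mem_singleton, not_or]
      exact ⟨fun h => hqp h.symm, hne hp hr, hne hp hs2⟩
  obtain ⟨t, ht⟩ : ∃ t, t ∉ ({p, q, r, s} : Finset (Fin 5)) := by
    by_contra hc
    push Not at hc
    have : ({p, q, r, s} : Finset (Fin 5)) = Finset.univ := by
      ext i
      simp [hc i]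
    rw [this] at hcard
    simp at hcard
  have hall : ∀ l : Fin 5, l ∈ insert t ({p, q, r, s} : Finset (Fin 5)) := by
    have hc5 : (insert t ({p, q, r, s} : Finset (Fin 5))).card = 5 := by
      rw [Finset.card_insert_of_notMem ht, hcard]
    have : insert t ({p, q, r, s} : Finset (Fin 5)) = Finset.univ := by
      rw [← Finset.card_eq_iff_eq_univ, hc5]
      simp
    intro l
    rw [this]
    exact Finset.mem_univ l
  have hall' : ∀ l : Fin 5, l = t ∨ l = p ∨ l = q ∨ l = r ∨ l = s := by
    intro l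
    have := hall l
    simpa only [Finset.mem_insert, Finset.mem_singleton] using this
  by_cases ht0 : g t ≤ 0
  · exact redB h g hgn hgb (p := p) (q := q) (r := r) (s := s) (t := t) (by
      intro l
      rcases hall' l with h | h | h | h | h <;> simp [h]) hp hq hr hs2 ht0
  · push Not at ht0
    exact redB h (fun i => -g i) hgn' hgb' (p := r) (q := s) (r := p) (s := q) (t := t) (by
      intro l
      rcases hall' l with h | h | h | h | h <;> simp [h]) (by linarith) (by linarith)
      (by linarith) (by linarith) (by linarith)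

/-- every bounded polytope with interior given by five inequalities has a certificate -/
theorem red {n : Fin 5 → E3} {b : Fin 5 → ℝ} (hbd : Bornology.IsBounded (HP n b))
    (hint : (interior (HP n b)).Nonempty) : ∃ A B : Fin 3 → E3, Cert (HP n b) A B := by
  obtain ⟨x0, hx0⟩ := hint
  have hx0' : x0 ∈ HP n b := interior_subset hx0
  have hb0 : ∀ i, n i = 0 → 0 ≤ b i := by
    intro i hi
    have := hx0' i
    rw [hi, inner_zero_left] at this
    exact this
  have hHP : HP n (fun i => if n i = 0 then 1 else b i) = HP n b := by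
    ext x
    constructor
    · intro hx i
      by_cases hi : n i = 0
      · rw [hi, inner_zero_left]
        exact hb0 i hi
      · have := hx i
        simpa [hi] using this
    · intro hx i
      by_cases hi : n i = 0
      · simp [hi]
      · have := hx i
        simpa [hi] using this
  have hspan : ∀ d : E3, d ≠ 0 → ∃ i, 0 < (inner ℝ (n i) d : ℝ) := by
    intro d hd
    by_contra hc
    push Not at hc
    obtain ⟨R, hR⟩ := hbd.exists_norm_le
    have hmem : ∀ t : ℝ, 0 ≤ t → x0 + t • d ∈ HP n b := by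
      intro t ht i
      rw [inner_add_right, inner_smul_right]
      have h1 := hx0' i
      have h2 := mul_nonpos_of_nonneg_of_nonpos ht (hc i)
      linarith
    have hd' : 0 < ‖d‖ := norm_pos_iff.mpr hd
    have hR0 : 0 ≤ R := (norm_nonneg _).trans (hR x0 hx0')
    have ht : 0 ≤ (R + ‖x0‖ + 1) / ‖d‖ := by positivity
    have h1 := hR _ (hmem _ ht)
    have h2 : ‖((R + ‖x0‖ + 1) / ‖d‖) • d‖ = R + ‖x0‖ + 1 := by
      rw [norm_smul, Real.norm_of_nonneg ht]
      field_simp
    have h3 : ‖((R + ‖x0‖ + 1) / ‖d‖) • d‖ ≤ ‖x0 + ((R + ‖x0‖ + 1) / ‖d‖) • d‖ + ‖x0‖ := by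
      have := norm_sub_le (x0 + ((R + ‖x0‖ + 1) / ‖d‖) • d) x0
      rwa [add_sub_cancel_left] at this
    linarith
  have hpos : ∀ i, 0 < sl n (fun i => if n i = 0 then 1 else b i) i x0 := by
    intro i
    by_cases hi : n i = 0
    · unfold sl
      simp [hi]
    · obtain ⟨ε, hε, hball⟩ := Metric.isOpen_iff.mp isOpen_interior x0 hx0
      have hni : 0 < ‖n i‖ := norm_pos_iff.mpr hi
      have h1 : x0 + (ε / (2 * ‖n i‖)) • n i ∈ HP n b := by
        apply interior_subset
        apply hball
        rw [Metric.mem_ball, dist_eq_norm, add_sub_cancel_left, norm_smul,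
          Real.norm_of_nonneg (by positivity)]
        have : ε / (2 * ‖n i‖) * ‖n i‖ = ε / 2 := by field_simp
        rw [this]
        linarith
      have h2 := h1 i
      rw [inner_add_right, inner_smul_right, real_inner_self_eq_norm_sq] at h2
      have h3 : 0 < ε / (2 * ‖n i‖) * ‖n i‖ ^ 2 := by positivity
      unfold sl
      simp only [hi, if_false]
      linarith
  have hG : Good n (fun i => if n i = 0 then 1 else b i) x0 := ⟨hpos, hspan⟩
  have hdep : ¬ LinearIndependent ℝ
      (fun i : Fin 5 => ((n i, if n i = 0 then 1 else b i) : E3 × ℝ)) := by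
    intro hl
    have := hl.fintype_card_le_finrank
    simp at this
  rw [Fintype.not_linearIndependent_iff] at hdep
  obtain ⟨g, hg, hgne⟩ := hdep
  have hgn : ∑ i, g i • n i = 0 := by
    have := congrArg Prod.fst hg
    rw [Prod.fst_sum] at this
    exact this
  have hgb : ∑ i, g i * (if n i = 0 then 1 else b i) = 0 := by
    have := congrArg Prod.snd hg
    rw [Prod.snd_sum] at this
    exact this
  obtain ⟨A, B, hC⟩ := redC hG g hgn hgb hgne
  exact ⟨A, B, hHP ▸ hC⟩

end Pool.Agent.Work.MP_3892ce_gt
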