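import Mathlib

/-! # The scalar inequality of the six-points theorem -/

set_option autoImplicit false

namespace Pool.Agent.Work.MP_3892ce_gt

/-- `(u² - G) (3m² + G)² 81 ≤ (2m + u)⁶` for `0 ≤ G ≤ m²`, `G ≤ u²`; equality only for `G = 0`,
`u = m`, or `m = 0`. -/
lemma scal_sq {m u G : ℝ} (hm : 0 < m) (hu : 0 ≤ u) (hG : 0 ≤ G) (hGm : G ≤ m ^ 2)
    (hGu : G ≤ u ^ 2) :
    81 * ((u ^ 2 - G) * (3 * m ^ 2 + G) ^ 2) ≤ ((2 * m + u) ^ 3) ^ 2 ∧
    (81 * ((u ^ 2 - G) * (3 * m ^ 2 + G) ^ 2) = ((2 * m + u) ^ 3) ^ 2 → G = 0 ∧ u = m) := by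
  rcases le_total (2 * u ^ 2) (3 * m ^ 2) with h1 | h1
  · -- case 1
    have hb : 0 ≤ 9 * m ^ 4 - 6 * m ^ 2 * u ^ 2 + 6 * m ^ 2 * G - G * u ^ 2 + G ^ 2 := by
      have e1 : 0 ≤ 3 * m ^ 2 * (3 * m ^ 2 - 2 * u ^ 2) := by
        have := sub_nonneg.mpr h1
        positivity
      have e2 : 0 ≤ G * (6 * m ^ 2 - u ^ 2) := by
        apply mul_nonneg hG
        nlinarith [sq_nonneg m]
      nlinarith [sq_nonneg G]
    have hk : (u ^ 2 - G) * (3 * m ^ 2 + G) ^ 2 = 9 * u ^ 2 * m ^ 4 -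
        G * (9 * m ^ 4 - 6 * m ^ 2 * u ^ 2 + 6 * m ^ 2 * G - G * u ^ 2 + G ^ 2) := by ring
    have hA : 27 * u * m ^ 2 ≤ (2 * m + u) ^ 3 := by
      have : (2 * m + u) ^ 3 - 27 * u * m ^ 2 = (u - m) ^ 2 * (u + 8 * m) := by ring
      have h2 : 0 ≤ (u - m) ^ 2 * (u + 8 * m) := by positivity
      linarith
    have hA2 : (27 * u * m ^ 2) ^ 2 ≤ ((2 * m + u) ^ 3) ^ 2 := by
      apply pow_le_pow_left₀ (by positivity) hA
    have hGb := mul_nonneg hG hb
    constructor
    · rw [hk]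
      nlinarith
    · intro he
      rw [hk] at he
      have hz : G * (9 * m ^ 4 - 6 * m ^ 2 * u ^ 2 + 6 * m ^ 2 * G - G * u ^ 2 + G ^ 2) = 0 := by
        nlinarith
      have hG0 : G = 0 := by
        by_contra hne
        have hGp : 0 < G := lt_of_le_of_ne hG (Ne.symm hne)
        have : 0 < 9 * m ^ 4 - 6 * m ^ 2 * u ^ 2 + 6 * m ^ 2 * G - G * u ^ 2 + G ^ 2 := by
          have e1 : 0 ≤ 3 * m ^ 2 * (3 * m ^ 2 - 2 * u ^ 2) := by
            have := sub_nonneg.mpr h1
            positivity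
          have e2 : 0 ≤ G * (6 * m ^ 2 - u ^ 2) := by
            apply mul_nonneg hG
            nlinarith [sq_nonneg m]
          have e3 : 0 < G ^ 2 := by positivity
          nlinarith
        have := mul_pos hGp this
        linarith
      refine ⟨hG0, ?_⟩
      rw [hG0] at he
      have h3 : (27 * u * m ^ 2) ^ 2 = ((2 * m + u) ^ 3) ^ 2 := by
        rw [← he]; ring
      have h4 : 27 * u * m ^ 2 = (2 * m + u) ^ 3 := by
        have := abs_eq_abs.mpr (sq_eq_sq_iff_eq_or_eq_neg.mp h3)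
        rwa [abs_of_nonneg (by positivity), abs_of_nonneg (by positivity)] at this
      have h5 : (u - m) ^ 2 * (u + 8 * m) = 0 := by
        have : (2 * m + u) ^ 3 - 27 * u * m ^ 2 = (u - m) ^ 2 * (u + 8 * m) := by ring
        linarith
      have h6 : (u - m) ^ 2 = 0 := by
        rcases mul_eq_zero.mp h5 with h | h
        · exact h
        · exfalso
          linarith
      have := pow_eq_zero_iff (two_ne_zero) |>.mp h6
      linarith
  · rcases le_total (u ^ 2) (3 * m ^ 2) with h2 | h2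
    · -- case 2
      have hlt : 81 * ((u ^ 2 - G) * (3 * m ^ 2 + G) ^ 2) < ((2 * m + u) ^ 3) ^ 2 := by
        have hAG : (u ^ 2 - G) * (3 * m ^ 2 + G) ^ 2 ≤ 4 / 27 * (u ^ 2 + 3 * m ^ 2) ^ 3 := by
          have : 4 / 27 * (u ^ 2 + 3 * m ^ 2) ^ 3 - (u ^ 2 - G) * (3 * m ^ 2 + G) ^ 2 =
            (1 / 27) * (2 * (u ^ 2 - G) - (3 * m ^ 2 + G)) ^ 2 *
              ((u ^ 2 - G) + 4 * (3 * m ^ 2 + G)) := by ring
          have h3 : 0 ≤ (1 / 27) * (2 * (u ^ 2 - G) - (3 * m ^ 2 + G)) ^ 2 *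
              ((u ^ 2 - G) + 4 * (3 * m ^ 2 + G)) := by
            have := sub_nonneg.mpr hGu
            positivity
          linarith
        have hum : 113 / 100 * m ≤ u := by
          by_contra hc
          push Not at hc
          nlinarith
        have hum2 : u ≤ 197 / 100 * m := by
          by_contra hc
          push Not at hc
          nlinarith
        have hq : 229 / 100 * (u ^ 2 + 3 * m ^ 2) ≤ (2 * m + u) ^ 2 := by
          nlinarith [mul_nonneg (sub_nonneg.mpr hum) (sub_nonneg.mpr hum2)]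
        have hq3 : (229 / 100 * (u ^ 2 + 3 * m ^ 2)) ^ 3 ≤ ((2 * m + u) ^ 2) ^ 3 :=
          pow_le_pow_left₀ (by positivity) hq 3
        have hpos : 0 < (u ^ 2 + 3 * m ^ 2) ^ 3 := by positivity
        have e1 : ((2 * m + u) ^ 2) ^ 3 = ((2 * m + u) ^ 3) ^ 2 := by ring
        have e2 : (229 / 100 * (u ^ 2 + 3 * m ^ 2)) ^ 3 =
          (229 / 100) ^ 3 * (u ^ 2 + 3 * m ^ 2) ^ 3 := by ring
        rw [e1, e2] at hq3
        nlinarith
      exact ⟨hlt.le, fun h => absurd h hlt.ne⟩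
    · -- case 3
      have hlt : 81 * ((u ^ 2 - G) * (3 * m ^ 2 + G) ^ 2) < ((2 * m + u) ^ 3) ^ 2 := by
        have hQ : 0 ≤ 7 * m ^ 2 * u ^ 2 - 16 * m ^ 4 + (u ^ 2 - 7 * m ^ 2) * G - G ^ 2 := by
          have hm2 : 0 < m ^ 2 := by positivity
          rcases le_total (u ^ 2) (7 * m ^ 2) with h7 | h7
          · have e1 : 0 ≤ (7 * m ^ 2 - u ^ 2) * (m ^ 2 - G) :=
              mul_nonneg (sub_nonneg.mpr h7) (sub_nonneg.mpr hGm)
            have e2 : G ^ 2 ≤ m ^ 4 := by nlinarith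
            nlinarith
          · have e1 : 0 ≤ (u ^ 2 - 7 * m ^ 2) * G := mul_nonneg (sub_nonneg.mpr h7) hG
            have e2 : G ^ 2 ≤ m ^ 4 := by nlinarith
            nlinarith
        have hD : (u ^ 2 - G) * (3 * m ^ 2 + G) ^ 2 ≤ 16 * m ^ 4 * (u ^ 2 - m ^ 2) := by
          have : 16 * m ^ 4 * (u ^ 2 - m ^ 2) - (u ^ 2 - G) * (3 * m ^ 2 + G) ^ 2 =
            (m ^ 2 - G) * (7 * m ^ 2 * u ^ 2 - 16 * m ^ 4 + (u ^ 2 - 7 * m ^ 2) * G - G ^ 2) := by
            ring
          have h3 := mul_nonneg (sub_nonneg.mpr hGm) hQ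
          linarith
        have hum : m ≤ u := by
          by_contra hc
          push Not at hc
          nlinarith
        have hL : 0 ≤ m ^ 2 * (4332 / 100 * u - 23104 / 1000 * m) := by
          have : 0 ≤ 4332 / 100 * u - 23104 / 1000 * m := by linarith
          positivity
        have hT : m ^ 2 * (4332 / 100 * u - 23104 / 1000 * m) ≤ (2 * m + u) ^ 3 := by
          have : (2 * m + u) ^ 3 - m ^ 2 * (4332 / 100 * u - 23104 / 1000 * m) =
            ((2 * m + u) - 19 / 5 * m) ^ 2 * ((2 * m + u) + 38 / 5 * m) := by ring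
          have h3 : 0 ≤ ((2 * m + u) - 19 / 5 * m) ^ 2 * ((2 * m + u) + 38 / 5 * m) := by
            positivity
          linarith
        have hT2 := pow_le_pow_left₀ hL hT 2
        have hfin : 81 * (16 * m ^ 4 * (u ^ 2 - m ^ 2)) <
            (m ^ 2 * (4332 / 100 * u - 23104 / 1000 * m)) ^ 2 := by
          have : (m ^ 2 * (4332 / 100 * u - 23104 / 1000 * m)) ^ 2 -
            81 * (16 * m ^ 4 * (u ^ 2 - m ^ 2)) = m ^ 4 * ((4332 / 100 * u - 23104 / 1000 * m) ^ 2 -
              1296 * (u ^ 2 - m ^ 2)) := by ring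
          have h4 : 0 < (4332 / 100 * u - 23104 / 1000 * m) ^ 2 - 1296 * (u ^ 2 - m ^ 2) := by
            nlinarith [sq_nonneg (u - 1724 / 1000 * m), sq_nonneg m, mul_pos hm hm]
          have h5 : 0 < m ^ 4 := by positivity
          have := mul_pos h5 h4
          linarith
        linarith
      exact ⟨hlt.le, fun h => absurd h hlt.ne⟩

/-- The scalar inequality: `P₀, P₁` perimeters, `u` the sum of the lengths of the lateral edges,
`w` the length of the sum of the lateral edges. -/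
lemma scal {p q u w : ℝ} (hp : 0 ≤ p) (hq : 0 ≤ q) (hu : 0 ≤ u) (hw : 0 ≤ w)
    (h : w ^ 2 + ((q - p) / 2) ^ 2 ≤ u ^ 2) :
    9 * w * (p ^ 2 + p * q + q ^ 2) ≤ (p + q + u) ^ 3 ∧
    (0 < w * (p ^ 2 + p * q + q ^ 2) → 9 * w * (p ^ 2 + p * q + q ^ 2) = (p + q + u) ^ 3 →
      p = q ∧ u = p ∧ w = p) := by
  by_cases hm : p + q = 0
  · have hp0 : p = 0 := by linarith
    have hq0 : q = 0 := by linarith
    subst hp0
    subst hq0
    constructor
    · simp only [ne_eq, OfNat.ofNat_ne_zero, not_false_eq_true, zero_pow, mul_zero, add_zero,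
        zero_add]
      positivity
    · intro h0
      simp at h0
  · have hpq : 0 < p + q := lt_of_le_of_ne (by positivity) (Ne.symm hm)
    set m := (p + q) / 2 with hmdef
    set G := ((q - p) / 2) ^ 2 with hGdef
    have hm0 : 0 < m := by positivity
    have hG0 : 0 ≤ G := by positivity
    have hGm : G ≤ m ^ 2 := by
      rw [hGdef, hmdef]
      nlinarith [mul_nonneg hp hq]
    have hw2 : w ^ 2 ≤ u ^ 2 - G := by linarith
    have hGu : G ≤ u ^ 2 := by nlinarith [sq_nonneg w]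
    obtain ⟨h1, h2⟩ := scal_sq hm0 hu hG0 hGm hGu
    have e1 : p ^ 2 + p * q + q ^ 2 = 3 * m ^ 2 + G := by rw [hmdef, hGdef]; ring
    have e2 : p + q + u = 2 * m + u := by rw [hmdef]; ring
    rw [e1, e2]
    have hsq : (9 * w * (3 * m ^ 2 + G)) ^ 2 ≤ 81 * ((u ^ 2 - G) * (3 * m ^ 2 + G) ^ 2) := by
      have : (9 * w * (3 * m ^ 2 + G)) ^ 2 = 81 * (w ^ 2 * (3 * m ^ 2 + G) ^ 2) := by ring
      rw [this]
      have := mul_le_mul_of_nonneg_right hw2 (sq_nonneg (3 * m ^ 2 + G))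
      linarith
    constructor
    · exact (sq_le_sq₀ (by positivity) (by positivity)).mp (hsq.trans h1)
    · intro hpos he
      have h3 : 81 * ((u ^ 2 - G) * (3 * m ^ 2 + G) ^ 2) = ((2 * m + u) ^ 3) ^ 2 := by
        apply le_antisymm h1
        rw [← he]
        exact hsq
      obtain ⟨hG, hum⟩ := h2 h3
      have hpq' : p = q := by
        have : (q - p) / 2 = 0 := by
          have h5 : ((q - p) / 2) ^ 2 = 0 := by rw [← hGdef]; exact hG
          exact pow_eq_zero_iff (two_ne_zero) |>.mp h5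
        linarith
      have hmp : m = p := by rw [hmdef, hpq']; ring
      refine ⟨hpq', by rw [hum, hmp], ?_⟩
      rw [hG, hum, hmp] at he
      have hp0 : 0 < p := by rw [← hmp]; exact hm0
      have : 27 * p ^ 2 * (w - p) = 0 := by
        have h6 : 9 * w * (3 * p ^ 2 + 0) = (2 * p + p) ^ 3 := he
        nlinarith
      rcases mul_eq_zero.mp this with h7 | h7
      · exfalso
        have : 0 < 27 * p ^ 2 := by positivity
        linarith
      · linarith

end Pool.Agent.Work.MP_3892ce_gt
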