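import Pool.Agent.Work.MP_3892ce_gt.Tet
import Pool.Agent.Work.MP_3892ce_gt.Scal

/-! # The six-points inequality -/

set_option autoImplicit false

namespace Pool.Agent.Work.MP_3892ce_gt

open MeasureTheory Set

lemma inner3 (x y : E3) : inner ℝ x y = x 0 * y 0 + x 1 * y 1 + x 2 * y 2 := by
  rw [PiLp.inner_apply, Fin.sum_univ_three]
  simp
  ring

lemma normsq3 (x : E3) : ‖x‖ ^ 2 = x 0 ^ 2 + x 1 ^ 2 + x 2 ^ 2 := by
  rw [← real_inner_self_eq_norm_sq, inner3]
  ring

/-- Gram determinant -/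
lemma det3_sq (x y z : E3) : det3 x y z ^ 2 = ‖x‖ ^ 2 * ‖y‖ ^ 2 * ‖z‖ ^ 2
    + 2 * (inner ℝ x y * inner ℝ y z * inner ℝ x z) - ‖x‖ ^ 2 * (inner ℝ y z) ^ 2
    - ‖y‖ ^ 2 * (inner ℝ x z) ^ 2 - ‖z‖ ^ 2 * (inner ℝ x y) ^ 2 := by
  rw [normsq3, normsq3, normsq3, inner3, inner3, inner3, det3]
  ring

/-- orthogonal projection along the unit vector `n` -/
noncomputable def pr (n x : E3) : E3 := x - inner ℝ n x • n

lemma pr_sub (n x y : E3) : pr n (x - y) = pr n x - pr n y := by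
  unfold pr
  rw [inner_sub_right]
  module

lemma pr_add (n x y : E3) : pr n (x + y) = pr n x + pr n y := by
  unfold pr
  rw [inner_add_right]
  module

lemma inner_pr {n : E3} (hn : ‖n‖ = 1) (x : E3) : inner ℝ n (pr n x) = 0 := by
  unfold pr
  rw [inner_sub_right, inner_smul_right, real_inner_self_eq_norm_sq, hn]
  ring

lemma norm_pr {n : E3} (hn : ‖n‖ = 1) (x : E3) :
    ‖x‖ ^ 2 = (inner ℝ n x) ^ 2 + ‖pr n x‖ ^ 2 := by
  have h1 : x = inner ℝ n x • n + pr n x := by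
    unfold pr
    module
  have h2 : ‖x‖ ^ 2 = ‖inner ℝ n x • n + pr n x‖ ^ 2 := by rw [← h1]
  rw [h2, ← real_inner_self_eq_norm_sq, inner_add_left, inner_add_right, inner_add_right,
    inner_smul_left, inner_smul_left, inner_smul_right, real_inner_self_eq_norm_sq,
    inner_smul_right, real_inner_comm n (pr n x), inner_pr hn, real_inner_self_eq_norm_sq, hn]
  simp
  ring

lemma norm_pr_le {n : E3} (hn : ‖n‖ = 1) (x : E3) : ‖pr n x‖ ≤ ‖x‖ := by
  have := norm_pr hn x
  apply (sq_le_sq₀ (norm_nonneg _) (norm_nonneg _)).mp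
  nlinarith [sq_nonneg (inner ℝ n x : ℝ)]

lemma det3_pr (n x y : E3) : det3 n (pr n x) (pr n y) = det3 n x y := by
  unfold pr det3
  simp only [PiLp.sub_apply, PiLp.smul_apply, smul_eq_mul]
  ring

/-- Heron: the isoperimetric inequality for triangles -/
lemma heron {a b c : ℝ} (h1 : c ≤ a + b) (h2 : a ≤ b + c) (h3 : b ≤ a + c)
    (ha : 0 ≤ a) (hb : 0 ≤ b) (hc : 0 ≤ c) :
    27 * (4 * a ^ 2 * b ^ 2 - (a ^ 2 + b ^ 2 - c ^ 2) ^ 2) ≤ (a + b + c) ^ 4 ∧
    (27 * (4 * a ^ 2 * b ^ 2 - (a ^ 2 + b ^ 2 - c ^ 2) ^ 2) = (a + b + c) ^ 4 → a = b ∧ b = c) := by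
  set x := b + c - a with hx
  set y := a + c - b with hy
  set z := a + b - c with hz
  have hx0 : 0 ≤ x := by linarith
  have hy0 : 0 ≤ y := by linarith
  have hz0 : 0 ≤ z := by linarith
  have e1 : 4 * a ^ 2 * b ^ 2 - (a ^ 2 + b ^ 2 - c ^ 2) ^ 2 = (x + y + z) * (x * y * z) := by
    rw [hx, hy, hz]; ring
  have e2 : a + b + c = x + y + z := by rw [hx, hy, hz]; ring
  have e3 : (x + y + z) ^ 3 - 27 * (x * y * z) =
      (1 / 2) * ((x + y) * (x - y) ^ 2 + (y + z) * (y - z) ^ 2 + (x + z) * (x - z) ^ 2) +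
      7 / 2 * (x * (y - z) ^ 2 + y * (x - z) ^ 2 + z * (x - y) ^ 2) := by ring
  have e4 : 0 ≤ (1 / 2) * ((x + y) * (x - y) ^ 2 + (y + z) * (y - z) ^ 2 + (x + z) * (x - z) ^ 2) +
      7 / 2 * (x * (y - z) ^ 2 + y * (x - z) ^ 2 + z * (x - y) ^ 2) := by positivity
  constructor
  · rw [e1, e2]
    have := mul_nonneg (add_nonneg (add_nonneg hx0 hy0) hz0) e4
    rw [← e3] at this
    nlinarith
  · intro he
    rw [e1, e2] at he
    by_cases hs : x + y + z = 0
    · have : x = 0 := by linarith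
      have : y = 0 := by linarith
      have : z = 0 := by linarith
      constructor <;> linarith
    · have hs0 : 0 < x + y + z := lt_of_le_of_ne (by positivity) (Ne.symm hs)
      have h5 : (x + y + z) * ((x + y + z) ^ 3 - 27 * (x * y * z)) = 0 := by nlinarith
      have h6 : (x + y + z) ^ 3 - 27 * (x * y * z) = 0 := by
        rcases mul_eq_zero.mp h5 with h | h
        · exact absurd h hs
        · exact h
      rw [e3] at h6
      have t1 : 0 ≤ (x + y) * (x - y) ^ 2 := by positivity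
      have t2 : 0 ≤ (y + z) * (y - z) ^ 2 := by positivity
      have t3 : 0 ≤ (x + z) * (x - z) ^ 2 := by positivity
      have t4 : 0 ≤ x * (y - z) ^ 2 := by positivity
      have t5 : 0 ≤ y * (x - z) ^ 2 := by positivity
      have t6 : 0 ≤ z * (x - y) ^ 2 := by positivity
      have s1 : (x + y + z) * (x - y) ^ 2 = 0 := by nlinarith
      have s2 : (x + y + z) * (y - z) ^ 2 = 0 := by nlinarith
      have r1 : x - y = 0 := by
        rcases mul_eq_zero.mp s1 with h | h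
        · exact absurd h hs
        · exact pow_eq_zero_iff (two_ne_zero) |>.mp h
      have r2 : y - z = 0 := by
        rcases mul_eq_zero.mp s2 with h | h
        · exact absurd h hs
        · exact pow_eq_zero_iff (two_ne_zero) |>.mp h
      constructor <;> linarith

/-- perimeter of the projection along `n` of the triangle with sides `x, y` -/
noncomputable def pp (n x y : E3) : ℝ := ‖pr n x‖ + ‖pr n y‖ + ‖pr n (x - y)‖

lemma pp_nonneg (n x y : E3) : 0 ≤ pp n x y := by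
  unfold pp
  positivity

/-- isoperimetric inequality for the projected triangle -/
lemma tri {n : E3} (hn : ‖n‖ = 1) (x y : E3) :
    6 * √3 * |det3 n x y| ≤ pp n x y ^ 2 ∧
    (6 * √3 * |det3 n x y| = pp n x y ^ 2 → ‖pr n x‖ = ‖pr n y‖ ∧ ‖pr n y‖ = ‖pr n (x - y)‖) := by
  set a := ‖pr n x‖ with ha
  set b := ‖pr n y‖ with hb
  set c := ‖pr n (x - y)‖ with hc
  have hcs : pr n (x - y) = pr n x - pr n y := pr_sub n x y
  have h1 : c ≤ a + b := by rw [hc, hcs]; exact norm_sub_le _ _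
  have h2 : a ≤ b + c := by
    have : pr n x = pr n y + pr n (x - y) := by rw [hcs]; abel
    rw [ha, this]
    exact norm_add_le _ _
  have h3 : b ≤ a + c := by
    have : pr n y = pr n x - pr n (x - y) := by rw [hcs]; abel
    rw [hb, this]
    exact norm_sub_le _ _
  have hin : 2 * inner ℝ (pr n x) (pr n y) = a ^ 2 + b ^ 2 - c ^ 2 := by
    have : c ^ 2 = a ^ 2 - 2 * inner ℝ (pr n x) (pr n y) + b ^ 2 := by
      rw [hc, hcs]
      exact norm_sub_sq_real _ _
    linarith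
  have hdet : 4 * det3 n x y ^ 2 = 4 * a ^ 2 * b ^ 2 - (a ^ 2 + b ^ 2 - c ^ 2) ^ 2 := by
    rw [← det3_pr, det3_sq, inner_pr hn, inner_pr hn, hn, ← hin]
    ring
  obtain ⟨H1, H2⟩ := heron h1 h2 h3 (norm_nonneg _) (norm_nonneg _) (norm_nonneg _)
  rw [← hdet] at H1 H2
  have hs3 : √3 ^ 2 = 3 := Real.sq_sqrt (by norm_num)
  have key : (6 * √3 * |det3 n x y|) ^ 2 = 27 * (4 * det3 n x y ^ 2) := by
    rw [mul_pow, mul_pow, hs3, sq_abs]
    ring
  have hpp : pp n x y = a + b + c := rfl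
  constructor
  · apply (sq_le_sq₀ (by positivity) (by positivity)).mp
    rw [key, hpp]
    calc _ ≤ (a + b + c) ^ 4 := H1
      _ = ((a + b + c) ^ 2) ^ 2 := by ring
  · intro he
    apply H2
    rw [← key, he, hpp]
    ring

end Pool.Agent.Work.MP_3892ce_gt
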