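import Pool.Agent.Work.MP_3892ce_gt.Six

/-! # The six-points theorem -/

set_option autoImplicit false

namespace Pool.Agent.Work.MP_3892ce_gt

open MeasureTheory Set

/-- six times the signed volume of the prism, as a sum of three tetrahedra -/
def vol6 (A B : Fin 3 → E3) : ℝ :=
  det3 (A 1 - A 0) (A 2 - A 0) (B 2 - A 0) - det3 (A 1 - A 0) (B 1 - A 0) (B 2 - A 0)
    + det3 (B 0 - A 0) (B 1 - A 0) (B 2 - A 0)

/-- the sum of the nine edges -/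
noncomputable def Lsum (A B : Fin 3 → E3) : ℝ :=
  (dist (A 0) (A 1) + dist (A 0) (A 2) + dist (A 1) (A 2))
    + (dist (B 0) (B 1) + dist (B 0) (B 2) + dist (B 1) (B 2))
    + (dist (A 0) (B 0) + dist (A 1) (B 1) + dist (A 2) (B 2))

/-- the volume of the quadrilateral `A i, A j, B j, B i` (zero if planar) -/
def pla (A B : Fin 3 → E3) (i j : Fin 3) : ℝ :=
  det3 (A j - A i) (B i - A i) (B j - A i)

lemma vol6_eq (A B : Fin 3 → E3) :
    6 * vol6 A B =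
      det3 ((B 0 - A 0) + (B 1 - A 1) + (B 2 - A 2)) (A 1 - A 0) (A 2 - A 0)
      + det3 ((B 0 - A 0) + (B 1 - A 1) + (B 2 - A 2)) ((A 1 - A 0) + (B 1 - B 0))
          ((A 2 - A 0) + (B 2 - B 0))
      + det3 ((B 0 - A 0) + (B 1 - A 1) + (B 2 - A 2)) (B 1 - B 0) (B 2 - B 0)
      + 3 * pla A B 0 1 + 3 * pla A B 1 2 - 3 * pla A B 0 2 := by
  unfold vol6 pla det3
  simp only [PiLp.sub_apply, PiLp.add_apply]
  ring

lemma det3_smul (c : ℝ) (x y z : E3) : det3 (c • x) y z = c * det3 x y z := by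
  unfold det3
  simp only [PiLp.smul_apply, smul_eq_mul]
  ring

lemma det3_zero (y z : E3) : det3 0 y z = 0 := by
  simp [det3]

lemma pp_add (n x y x' y' : E3) : pp n (x + x') (y + y') ≤ pp n x y + pp n x' y' := by
  unfold pp
  have e : x + x' - (y + y') = (x - y) + (x' - y') := by abel
  rw [e, pr_add, pr_add, pr_add]
  have h1 := norm_add_le (pr n x) (pr n x')
  have h2 := norm_add_le (pr n y) (pr n y')
  have h3 := norm_add_le (pr n (x - y)) (pr n (x' - y'))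
  linarith

lemma sumnorm {t0 t1 t2 o0 o1 o2 l0 l1 l2 : ℝ} (h0 : l0 ^ 2 = t0 ^ 2 + o0 ^ 2)
    (h1 : l1 ^ 2 = t1 ^ 2 + o1 ^ 2) (h2 : l2 ^ 2 = t2 ^ 2 + o2 ^ 2) (hl0 : 0 ≤ l0) (hl1 : 0 ≤ l1)
    (hl2 : 0 ≤ l2) :
    (t0 + t1 + t2) ^ 2 + (o0 + o1 + o2) ^ 2 ≤ (l0 + l1 + l2) ^ 2 := by
  have key : ∀ t o l t' o' l' : ℝ, l ^ 2 = t ^ 2 + o ^ 2 → l' ^ 2 = t' ^ 2 + o' ^ 2 → 0 ≤ l →
      0 ≤ l' → t * t' + o * o' ≤ l * l' := by
    intro t o l t' o' l' h h' hl hl'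
    apply le_of_abs_le
    apply abs_le_of_sq_le_sq _ (by positivity)
    have : (l * l') ^ 2 = (t ^ 2 + o ^ 2) * (t' ^ 2 + o' ^ 2) := by rw [← h, ← h']; ring
    rw [this]
    nlinarith [sq_nonneg (t * o' - o * t')]
  have k1 := key _ _ _ _ _ _ h0 h1 hl0 hl1
  have k2 := key _ _ _ _ _ _ h0 h2 hl0 hl2
  have k3 := key _ _ _ _ _ _ h1 h2 hl1 hl2
  nlinarith

lemma pp_diff (n w0 w1 w2 : E3) :
    pp n (w1 - w0) (w2 - w0) ≤ 2 * (‖pr n w0‖ + ‖pr n w1‖ + ‖pr n w2‖) := by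
  unfold pp
  have e : w1 - w0 - (w2 - w0) = w1 - w2 := by abel
  rw [e, pr_sub, pr_sub, pr_sub]
  have h1 := norm_sub_le (pr n w1) (pr n w0)
  have h2 := norm_sub_le (pr n w2) (pr n w0)
  have h3 := norm_sub_le (pr n w1) (pr n w2)
  linarith

lemma pp_diff' (n w0 w1 w2 : E3) :
    pp n (w0 - w1) (w0 - w2) ≤ 2 * (‖pr n w0‖ + ‖pr n w1‖ + ‖pr n w2‖) := by
  unfold pp
  have e : w0 - w1 - (w0 - w2) = w2 - w1 := by abel
  rw [e, pr_sub, pr_sub, pr_sub]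
  have h1 := norm_sub_le (pr n w0) (pr n w1)
  have h2 := norm_sub_le (pr n w0) (pr n w2)
  have h3 := norm_sub_le (pr n w2) (pr n w1)
  linarith

/-- the volume is bounded by the projected perimeters -/
lemma vol_bound {W n : E3} {a : ℝ} (ha : 0 < a) (hW : W = a • n) (hn1 : ‖n‖ = 1)
    (e1 e2 f1 f2 : E3) (v : ℝ)
    (hv : 6 * v = det3 W e1 e2 + det3 W (e1 + f1) (e2 + f2) + det3 W f1 f2) :
    162 * √3 * |v| ≤ 9 * a * (pp n e1 e2 ^ 2 + pp n e1 e2 * pp n f1 f2 + pp n f1 f2 ^ 2) ∧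
    (162 * √3 * |v| = 9 * a * (pp n e1 e2 ^ 2 + pp n e1 e2 * pp n f1 f2 + pp n f1 f2 ^ 2) →
      6 * √3 * |det3 n e1 e2| = pp n e1 e2 ^ 2 ∧ 6 * √3 * |det3 n f1 f2| = pp n f1 f2 ^ 2) := by
  obtain ⟨T1, -⟩ := tri hn1 e1 e2
  obtain ⟨T2, -⟩ := tri hn1 (e1 + f1) (e2 + f2)
  obtain ⟨T3, -⟩ := tri hn1 f1 f2
  have hrpq := pp_add n e1 e2 f1 f2
  have hr0 := pp_nonneg n (e1 + f1) (e2 + f2)
  have hr2 := pow_le_pow_left₀ hr0 hrpq 2
  have hv2 : 6 * |v| ≤ a * (|det3 n e1 e2| + |det3 n (e1 + f1) (e2 + f2)| + |det3 n f1 f2|) := by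
    have e0 : 6 * |v| = |6 * v| := by
      rw [abs_mul, abs_of_pos (by norm_num : (0:ℝ) < 6)]
    rw [e0, hv, hW, det3_smul, det3_smul, det3_smul]
    have : a * det3 n e1 e2 + a * det3 n (e1 + f1) (e2 + f2) + a * det3 n f1 f2
        = a * (det3 n e1 e2 + det3 n (e1 + f1) (e2 + f2) + det3 n f1 f2) := by ring
    rw [this, abs_mul, abs_of_pos ha]
    apply mul_le_mul_of_nonneg_left _ ha.le
    exact abs_add_three _ _ _
  have hs3 : 0 < √3 := by positivity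
  generalize |det3 n e1 e2| = D1 at *
  generalize |det3 n (e1 + f1) (e2 + f2)| = D2 at *
  generalize |det3 n f1 f2| = D3 at *
  generalize pp n (e1 + f1) (e2 + f2) = r at *
  generalize pp n e1 e2 = p at *
  generalize pp n f1 f2 = q at *
  generalize |v| = y at *
  generalize √3 = s at *
  clear hv hW
  have h0 : s * (6 * y) ≤ s * (a * (D1 + D2 + D3)) := mul_le_mul_of_nonneg_left hv2 hs3.le
  have h0' : 36 * s * y ≤ a * (6 * s * D1 + 6 * s * D2 + 6 * s * D3) := by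
    have : a * (6 * s * D1 + 6 * s * D2 + 6 * s * D3) = 6 * (s * (a * (D1 + D2 + D3))) := by ring
    rw [this]
    linarith
  have h1 : 6 * s * D1 + 6 * s * D2 + 6 * s * D3 ≤ 2 * (p ^ 2 + p * q + q ^ 2) := by
    have : (p + q) ^ 2 = p ^ 2 + 2 * (p * q) + q ^ 2 := by ring
    rw [this] at hr2
    linarith
  have h2 := mul_le_mul_of_nonneg_left h1 ha.le
  have h3 : a * (2 * (p ^ 2 + p * q + q ^ 2)) = 2 * (a * (p ^ 2 + p * q + q ^ 2)) := by ring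
  have h4 : 9 * a * (p ^ 2 + p * q + q ^ 2) = 9 * (a * (p ^ 2 + p * q + q ^ 2)) := by ring
  have h5 : 162 * s * y = 9 / 2 * (36 * s * y) := by ring
  constructor
  · rw [h5, h4]
    linarith
  · intro he
    rw [h5, h4] at he
    have h6 : a * (6 * s * D1 + 6 * s * D2 + 6 * s * D3) = a * (2 * (p ^ 2 + p * q + q ^ 2)) := by
      apply le_antisymm h2
      linarith
    have h7 := mul_left_cancel₀ ha.ne' h6
    have h8 : (p + q) ^ 2 = p ^ 2 + 2 * (p * q) + q ^ 2 := by ring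
    rw [h8] at hr2
    constructor <;> linarith

/-- the chain of inequalities for real numbers -/
lemma chain {v a p q u pA pB : ℝ} (h1 : v ≤ 9 * a * (p ^ 2 + p * q + q ^ 2)) (hp0 : 0 ≤ p)
    (hq0 : 0 ≤ q) (hu0 : 0 ≤ u) (ha : 0 < a) (hc : a ^ 2 + ((q - p) / 2) ^ 2 ≤ u ^ 2)
    (hpA : p ≤ pA) (hqB : q ≤ pB) :
    v ≤ (pA + pB + u) ^ 3 ∧ (0 < v → v = (pA + pB + u) ^ 3 →
      v = 9 * a * (p ^ 2 + p * q + q ^ 2) ∧ pA = p ∧ pB = q ∧ p = q ∧ u = p ∧ a = p) := by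
  obtain ⟨S1, S2⟩ := scal hp0 hq0 hu0 ha.le hc
  have hle : p + q + u ≤ pA + pB + u := by linarith
  have hPL : (p + q + u) ^ 3 ≤ (pA + pB + u) ^ 3 := pow_le_pow_left₀ (by positivity) hle 3
  refine ⟨h1.trans (S1.trans hPL), ?_⟩
  intro hv he
  have E1 : v = 9 * a * (p ^ 2 + p * q + q ^ 2) := le_antisymm h1 (by linarith)
  have E2 : 9 * a * (p ^ 2 + p * q + q ^ 2) = (p + q + u) ^ 3 := le_antisymm S1 (by linarith)
  have E3 : (p + q + u) ^ 3 = (pA + pB + u) ^ 3 := le_antisymm hPL (by linarith)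
  have E4 : p + q + u = pA + pB + u :=
    (pow_left_inj₀ (by positivity) (by linarith) (by norm_num)).mp E3
  have hpos : 0 < a * (p ^ 2 + p * q + q ^ 2) := by
    have : 9 * a * (p ^ 2 + p * q + q ^ 2) = 9 * (a * (p ^ 2 + p * q + q ^ 2)) := by ring
    rw [this] at E1
    linarith
  obtain ⟨F1, F2, F3⟩ := S2 hpos E2
  exact ⟨E1, by linarith, by linarith, F1, F2, F3⟩

lemma inner_zero_of_norm {n : E3} (hn1 : ‖n‖ = 1) {x : E3} (hx : ‖x‖ = ‖pr n x‖) :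
    inner ℝ n x = (0 : ℝ) := by
  have := norm_pr hn1 x
  rw [hx] at this
  have h2 : (inner ℝ n x : ℝ) ^ 2 = 0 := by linarith
  exact pow_eq_zero_iff (two_ne_zero) |>.mp h2

lemma eq_smul_of_norm {n : E3} (hn1 : ‖n‖ = 1) {x : E3} (hx : ‖x‖ = inner ℝ n x) :
    x = (inner ℝ n x : ℝ) • n := by
  have h1 := norm_pr hn1 x
  rw [hx] at h1
  have h2 : ‖pr n x‖ ^ 2 = 0 := by linarith
  have h3 : ‖pr n x‖ = 0 := pow_eq_zero_iff (two_ne_zero) |>.mp h2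
  have h4 : pr n x = 0 := norm_eq_zero.mp h3
  unfold pr at h4
  exact sub_eq_zero.mp h4

/-- the six-points theorem in terms of the sides and the lateral edges -/
lemma six_core (e1 e2 w0 w1 w2 : E3) (v : ℝ)
    (hv : 6 * v = det3 (w0 + w1 + w2) e1 e2
      + det3 (w0 + w1 + w2) (e1 + (e1 + (w1 - w0))) (e2 + (e2 + (w2 - w0)))
      + det3 (w0 + w1 + w2) (e1 + (w1 - w0)) (e2 + (w2 - w0))) (L : ℝ)
    (hL : L = (‖e1‖ + ‖e2‖ + ‖e1 - e2‖) + (‖e1 + (w1 - w0)‖ + ‖e2 + (w2 - w0)‖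
      + ‖(e1 + (w1 - w0)) - (e2 + (w2 - w0))‖) + (‖w0‖ + ‖w1‖ + ‖w2‖)) :
    162 * √3 * |v| ≤ L ^ 3 ∧
    (0 < |v| → 162 * √3 * |v| = L ^ 3 →
      ∃ (u : E3) (s : ℝ), 0 < s ∧ w0 = u ∧ w1 = u ∧ w2 = u ∧ ‖e1‖ = s ∧ ‖e2‖ = s ∧
        ‖e1 - e2‖ = s ∧ ‖u‖ = s ∧ inner ℝ e1 u = (0 : ℝ) ∧ inner ℝ e2 u = (0 : ℝ)) := by
  obtain ⟨f1, hf1⟩ : ∃ f1, f1 = e1 + (w1 - w0) := ⟨_, rfl⟩
  obtain ⟨f2, hf2⟩ : ∃ f2, f2 = e2 + (w2 - w0) := ⟨_, rfl⟩
  rw [← hf1, ← hf2] at hv hL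
  by_cases hW0 : w0 + w1 + w2 = 0
  · have hz : v = 0 := by
      rw [hW0, det3_zero, det3_zero, det3_zero] at hv
      linarith
    rw [hz]
    constructor
    · rw [abs_zero, mul_zero, hL]
      positivity
    · intro h
      simp at h
  have hWn : 0 < ‖w0 + w1 + w2‖ := norm_pos_iff.mpr hW0
  obtain ⟨n, hn⟩ : ∃ n : E3, n = ‖w0 + w1 + w2‖⁻¹ • (w0 + w1 + w2) := ⟨_, rfl⟩
  have hn1 : ‖n‖ = 1 := by
    rw [hn, norm_smul, norm_inv, norm_norm]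
    exact inv_mul_cancel₀ hWn.ne'
  have hWn' : w0 + w1 + w2 = ‖w0 + w1 + w2‖ • n := by
    rw [hn, smul_smul, mul_inv_cancel₀ hWn.ne', one_smul]
  obtain ⟨V1, V2⟩ := vol_bound hWn hWn' hn1 e1 e2 f1 f2 v hv
  -- the lateral edges
  have ht : inner ℝ n w0 + inner ℝ n w1 + inner ℝ n w2 = ‖w0 + w1 + w2‖ := by
    rw [← inner_add_right, ← inner_add_right]
    conv_lhs => rw [hWn']
    rw [inner_smul_right, real_inner_self_eq_norm_sq, hn1]
    ring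
  have hsum := sumnorm (norm_pr hn1 w0) (norm_pr hn1 w1) (norm_pr hn1 w2) (norm_nonneg _)
    (norm_nonneg _) (norm_nonneg _)
  rw [ht] at hsum
  have hqp : pp n f1 f2 ≤ pp n e1 e2 + 2 * (‖pr n w0‖ + ‖pr n w1‖ + ‖pr n w2‖) := by
    rw [hf1, hf2]
    have h1 := pp_add n e1 e2 (w1 - w0) (w2 - w0)
    have h2 := pp_diff n w0 w1 w2
    linarith
  have hpq : pp n e1 e2 ≤ pp n f1 f2 + 2 * (‖pr n w0‖ + ‖pr n w1‖ + ‖pr n w2‖) := by
    have h1 := pp_add n f1 f2 (w0 - w1) (w0 - w2)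
    have h2 := pp_diff' n w0 w1 w2
    have g1 : f1 + (w0 - w1) = e1 := by rw [hf1]; abel
    have g2 : f2 + (w0 - w2) = e2 := by rw [hf2]; abel
    rw [g1, g2] at h1
    linarith
  have hOm0 : 0 ≤ ‖pr n w0‖ + ‖pr n w1‖ + ‖pr n w2‖ := by positivity
  have hcond : ‖w0 + w1 + w2‖ ^ 2 + ((pp n f1 f2 - pp n e1 e2) / 2) ^ 2 ≤
      (‖w0‖ + ‖w1‖ + ‖w2‖) ^ 2 := by
    have : ((pp n f1 f2 - pp n e1 e2) / 2) ^ 2 ≤ (‖pr n w0‖ + ‖pr n w1‖ + ‖pr n w2‖) ^ 2 := by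
      apply sq_le_sq'
      · linarith
      · linarith
    linarith
  have hpA : pp n e1 e2 ≤ ‖e1‖ + ‖e2‖ + ‖e1 - e2‖ := by
    have h1 := norm_pr_le hn1 e1
    have h2 := norm_pr_le hn1 e2
    have h3 := norm_pr_le hn1 (e1 - e2)
    unfold pp
    linarith
  have hqB : pp n f1 f2 ≤ ‖f1‖ + ‖f2‖ + ‖f1 - f2‖ := by
    have h1 := norm_pr_le hn1 f1
    have h2 := norm_pr_le hn1 f2
    have h3 := norm_pr_le hn1 (f1 - f2)
    unfold pp
    linarith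
  obtain ⟨C1, C2⟩ := chain V1 (pp_nonneg _ _ _) (pp_nonneg _ _ _) (by positivity) hWn hcond hpA hqB
  rw [← hL] at C1 C2
  refine ⟨C1, ?_⟩
  intro hvpos heq
  obtain ⟨E1, E2, E3', E4, E5, E6⟩ := C2 (by positivity) heq
  obtain ⟨G1, G3⟩ := V2 E1
  obtain ⟨a1, a2⟩ := (tri hn1 e1 e2).2 G1
  have hp' : 0 < pp n e1 e2 := by rw [← E6]; exact hWn
  have hpe : pp n e1 e2 = ‖pr n e1‖ + ‖pr n e2‖ + ‖pr n (e1 - e2)‖ := rfl
  have hqe : pp n f1 f2 = ‖pr n f1‖ + ‖pr n f2‖ + ‖pr n (f1 - f2)‖ := rfl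
  have k1 := norm_pr_le hn1 e1
  have k2 := norm_pr_le hn1 e2
  have k3 := norm_pr_le hn1 (e1 - e2)
  have k4 := norm_pr_le hn1 f1
  have k5 := norm_pr_le hn1 f2
  have k6 := norm_pr_le hn1 (f1 - f2)
  have c1 : ‖e1‖ = ‖pr n e1‖ := by linarith
  have c2 : ‖e2‖ = ‖pr n e2‖ := by linarith
  have c3 : ‖e1 - e2‖ = ‖pr n (e1 - e2)‖ := by linarith
  have c4 : ‖f1‖ = ‖pr n f1‖ := by linarith
  have c5 : ‖f2‖ = ‖pr n f2‖ := by linarith
  have i1 := inner_zero_of_norm hn1 c1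
  have i2 := inner_zero_of_norm hn1 c2
  have i3 := inner_zero_of_norm hn1 c4
  have i4 := inner_zero_of_norm hn1 c5
  have t1 : (inner ℝ n w1 : ℝ) = inner ℝ n w0 := by
    have : w1 = w0 + (f1 - e1) := by rw [hf1]; abel
    rw [this, inner_add_right, inner_sub_right, i3, i1]
    ring
  have t2 : (inner ℝ n w2 : ℝ) = inner ℝ n w0 := by
    have : w2 = w0 + (f2 - e2) := by rw [hf2]; abel
    rw [this, inner_add_right, inner_sub_right, i4, i2]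
    ring
  have t0 : (inner ℝ n w0 : ℝ) = pp n e1 e2 / 3 := by
    rw [t1, t2, E6] at ht
    linarith
  have hle : ∀ x : E3, (inner ℝ n x : ℝ) ≤ ‖x‖ := by
    intro x
    have := real_inner_le_norm n x
    rwa [hn1, one_mul] at this
  have l0 := hle w0
  have l1 := hle w1
  have l2 := hle w2
  have w0e := eq_smul_of_norm hn1 (x := w0) (by linarith)
  have w1e := eq_smul_of_norm hn1 (x := w1) (by linarith)
  have w2e := eq_smul_of_norm hn1 (x := w2) (by linarith)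
  rw [t0] at w0e
  rw [t1, t0] at w1e
  rw [t2, t0] at w2e
  refine ⟨(pp n e1 e2 / 3) • n, pp n e1 e2 / 3, by positivity, w0e, w1e, w2e, ?_, ?_, ?_, ?_, ?_, ?_⟩
  · linarith
  · linarith
  · linarith
  · rw [norm_smul, hn1, Real.norm_eq_abs, abs_of_pos (by positivity)]
    ring
  · rw [inner_smul_right, real_inner_comm, i1]
    ring
  · rw [inner_smul_right, real_inner_comm, i2]
    ring

theorem six (A B : Fin 3 → E3) (h01 : pla A B 0 1 = 0) (h12 : pla A B 1 2 = 0)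
    (h02 : pla A B 0 2 = 0) :
    162 * √3 * |vol6 A B| ≤ Lsum A B ^ 3 ∧
    (0 < |vol6 A B| → 162 * √3 * |vol6 A B| = Lsum A B ^ 3 →
      ∃ (u : E3) (s : ℝ), 0 < s ∧ (∀ i, B i = A i + u) ∧
        (∀ i j, i ≠ j → dist (A i) (A j) = s) ∧ ‖u‖ = s ∧
        ∀ i j, inner ℝ (A i - A j) u = (0 : ℝ)) := by
  have hf1 : (A 1 - A 0) + ((B 1 - A 1) - (B 0 - A 0)) = B 1 - B 0 := by abel
  have hf2 : (A 2 - A 0) + ((B 2 - A 2) - (B 0 - A 0)) = B 2 - B 0 := by abel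
  have hv := vol6_eq A B
  rw [h01, h12, h02, mul_zero, add_zero, add_zero, sub_zero] at hv
  have h := six_core (A 1 - A 0) (A 2 - A 0) (B 0 - A 0) (B 1 - A 1) (B 2 - A 2) (vol6 A B)
    (by rw [hf1, hf2]; exact hv) (Lsum A B) (by
      rw [hf1, hf2]
      unfold Lsum
      rw [dist_comm (A 0) (A 1), dist_comm (A 0) (A 2), dist_comm (B 0) (B 1),
        dist_comm (B 0) (B 2), dist_comm (A 0) (B 0), dist_comm (A 1) (B 1), dist_comm (A 2) (B 2)]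
      simp only [dist_eq_norm]
      have g1 : A 1 - A 0 - (A 2 - A 0) = A 1 - A 2 := by abel
      have g2 : B 1 - B 0 - (B 2 - B 0) = B 1 - B 2 := by abel
      rw [g1, g2])
  refine ⟨h.1, ?_⟩
  intro h1 h2
  obtain ⟨u, s, hs, a0, a1, a2, n1, n2, n3, hu, i1, i2⟩ := h.2 h1 h2
  have d01 : dist (A 0) (A 1) = s := by rw [dist_comm, dist_eq_norm]; exact n1
  have d02 : dist (A 0) (A 2) = s := by rw [dist_comm, dist_eq_norm]; exact n2
  have d12 : dist (A 1) (A 2) = s := by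
    rw [dist_eq_norm]
    have : A 1 - A 2 = (A 1 - A 0) - (A 2 - A 0) := by abel
    rw [this]
    exact n3
  refine ⟨u, s, hs, ?_, ?_, hu, ?_⟩
  · intro i
    fin_cases i
    · exact (sub_eq_iff_eq_add'.mp a0)
    · exact (sub_eq_iff_eq_add'.mp a1)
    · exact (sub_eq_iff_eq_add'.mp a2)
  · intro i j hij
    fin_cases i <;> fin_cases j
    · exact absurd rfl hij
    · exact d01
    · exact d02
    · rw [dist_comm]; exact d01
    · exact absurd rfl hij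
    · exact d12
    · rw [dist_comm]; exact d02
    · rw [dist_comm]; exact d12
    · exact absurd rfl hij
  · have g : ∀ i : Fin 3, inner ℝ (A i - A 0) u = (0 : ℝ) := by
      intro i
      fin_cases i
      · simp
      · exact i1
      · exact i2
    intro i j
    have : A i - A j = (A i - A 0) - (A j - A 0) := by abel
    rw [this, inner_sub_left, g i, g j]
    ring

end Pool.Agent.Work.MP_3892ce_gt
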